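import Mathlib

/-!
# Finite differences and specialisation at `v ^ s`

If for all large `s` the value `B(v ^ s)` is, in the localisation at the kernel of `ε`, `(1 - v) ^ M` times an
element with the value `w(s)`, then `w` is a polynomial function of `s`.
-/

set_option autoImplicit false

namespace Pool.Agent.Q300.LM

open Finset Polynomial

/-- finite differences of `B(v ^ s)` -/
theorem sum_diff {R : Type} [CommRing R] (v : R) (B : R[X]) (N s : ℕ) :
    ∃ H : R, ∑ j ∈ range (N + 1), (-1) ^ j * (N.choose j : R) * B.eval (v ^ (s + j)) =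
      (1 - v) ^ N * H := by
  refine ⟨∑ k ∈ range (B.natDegree + 1), B.coeff k * v ^ (k * s) *
    (∑ i ∈ range k, v ^ i) ^ N, ?_⟩
  have h1 : ∀ j, B.eval (v ^ (s + j)) = ∑ k ∈ range (B.natDegree + 1),
      B.coeff k * (v ^ (k * s) * (v ^ k) ^ j) := fun j => by
    rw [eval_eq_sum_range]
    refine sum_congr rfl fun k _ => ?_
    rw [← pow_mul, ← pow_mul, ← pow_add]
    congr 2
    ring
  have h2 : ∀ k : ℕ, (1 - v) ^ N * (∑ i ∈ range k, v ^ i) ^ N =
      ∑ j ∈ range (N + 1), (-1) ^ j * (N.choose j : R) * (v ^ k) ^ j := fun k => by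
    rw [← mul_pow, mul_comm (1 - v), geom_sum_mul_neg, sub_eq_add_neg, add_comm, add_pow]
    refine sum_congr rfl fun j _ => ?_
    rw [one_pow, mul_one, neg_pow]
    ring
  calc _ = ∑ j ∈ range (N + 1), ∑ k ∈ range (B.natDegree + 1),
        (-1) ^ j * (N.choose j : R) * (B.coeff k * (v ^ (k * s) * (v ^ k) ^ j)) := by
        refine sum_congr rfl fun j _ => ?_
        rw [h1, mul_sum]
    _ = ∑ k ∈ range (B.natDegree + 1), ∑ j ∈ range (N + 1),
        (-1) ^ j * (N.choose j : R) * (B.coeff k * (v ^ (k * s) * (v ^ k) ^ j)) := sum_comm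
    _ = _ := by
        rw [mul_sum]
        refine sum_congr rfl fun k _ => ?_
        rw [show (1 - v) ^ N * (B.coeff k * v ^ (k * s) * (∑ i ∈ range k, v ^ i) ^ N) =
          B.coeff k * v ^ (k * s) * ((1 - v) ^ N * (∑ i ∈ range k, v ^ i) ^ N) by ring, h2,
          mul_sum]
        refine sum_congr rfl fun j _ => ?_
        ring

/-- a function with vanishing differences is a polynomial -/
theorem poly_of_diff (w : ℕ → ℂ) (N s₁ : ℕ)
    (h : ∀ s, s₁ ≤ s → ∑ j ∈ range (N + 1), (-1 : ℂ) ^ j * (N.choose j : ℂ) * w (s + j) = 0) :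
    ∃ g : ℂ[X], ∀ s, s₁ ≤ s → w s = g.eval (s : ℂ) := by
  set W : ℕ → ℂ := fun n => w (s₁ + n) with hW
  have hN : (fwdDiff (1 : ℕ))^[N] W = 0 := by
    funext n
    rw [fwdDiff_iter_eq_sum_shift, Pi.zero_apply]
    have h1 := h (s₁ + n) (Nat.le_add_right _ _)
    have h2 : ∑ k ∈ range (N + 1), ((-1 : ℤ) ^ (N - k) * N.choose k) • W (n + k • 1) =
        (-1 : ℂ) ^ N * ∑ j ∈ range (N + 1), (-1 : ℂ) ^ j * (N.choose j : ℂ) *
          w (s₁ + n + j) := by
      rw [mul_sum]
      refine sum_congr rfl fun k hk => ?_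
      have hk' : k ≤ N := Nat.lt_succ_iff.1 (mem_range.1 hk)
      have e1 : (-1 : ℂ) ^ N * (-1) ^ k = (-1) ^ (N - k) := by
        obtain ⟨m, rfl⟩ := Nat.exists_eq_add_of_le hk'
        rw [Nat.add_sub_cancel_left, pow_add]
        have : ((-1 : ℂ) ^ k) * (-1) ^ k = 1 := by
          rw [← mul_pow, neg_one_mul, neg_neg, one_pow]
        linear_combination ((-1 : ℂ) ^ m) * this
      simp only [hW, smul_eq_mul, mul_one, zsmul_eq_mul]
      push_cast
      rw [← mul_assoc, ← mul_assoc, e1, add_assoc]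
    rw [h2, h1, mul_zero]
  have hz : ∀ k, N ≤ k → (fwdDiff (1 : ℕ))^[k] W = 0 := by
    intro k hk
    obtain ⟨m, rfl⟩ := Nat.exists_eq_add_of_le hk
    rw [add_comm, Function.iterate_add_apply, hN]
    induction m with
    | zero => rfl
    | succ m ih =>
      rw [Function.iterate_succ_apply', ih (Nat.le_add_right _ _)]
      funext n
      simp [fwdDiff]
  set c : ℕ → ℂ := fun k => (fwdDiff (1 : ℕ))^[k] W 0 with hc
  refine ⟨(∑ k ∈ range N, C (c k / (k.factorial : ℂ)) * descPochhammer ℂ k).comp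
    (X - C (s₁ : ℂ)), fun s hs => ?_⟩
  obtain ⟨n, rfl⟩ := Nat.exists_eq_add_of_le hs
  have h3 := shift_eq_sum_fwdDiff_iter (1 : ℕ) W n 0
  have h4 : w (s₁ + n) = ∑ k ∈ range (n + 1), (n.choose k : ℂ) * c k := by
    rw [show w (s₁ + n) = W (0 + n • 1) by simp [hW], h3]
    refine sum_congr rfl fun k _ => ?_
    rw [nsmul_eq_mul]
  have h5 : ∑ k ∈ range (n + 1), (n.choose k : ℂ) * c k = ∑ k ∈ range N, (n.choose k : ℂ) * c k := by
    have e1 : ∑ k ∈ range (n + 1), (n.choose k : ℂ) * c k =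
        ∑ k ∈ range (max (n + 1) N), (n.choose k : ℂ) * c k := by
      refine sum_subset (range_mono (le_max_left _ _)) fun k _ hk => ?_
      rw [mem_range, not_lt] at hk
      rw [Nat.choose_eq_zero_of_lt (by omega), Nat.cast_zero, zero_mul]
    have e2 : ∑ k ∈ range N, (n.choose k : ℂ) * c k =
        ∑ k ∈ range (max (n + 1) N), (n.choose k : ℂ) * c k := by
      refine sum_subset (range_mono (le_max_right _ _)) fun k _ hk => ?_
      rw [mem_range, not_lt] at hk
      rw [hc]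
      simp only
      rw [hz k hk, Pi.zero_apply, mul_zero]
    rw [e1, e2]
  rw [h4, h5, eval_comp, eval_sub, eval_X, eval_C, eval_finsetSum]
  refine sum_congr rfl fun k _ => ?_
  have e3 : ((s₁ + n : ℕ) : ℂ) - s₁ = (n : ℂ) := by push_cast; ring
  rw [e3, eval_mul, eval_C, descPochhammer_eval_eq_descFactorial,
    Nat.descFactorial_eq_factorial_mul_choose]
  have hk : (k.factorial : ℂ) ≠ 0 := by exact_mod_cast k.factorial_ne_zero
  push_cast
  field_simp

/-- **The specialisation is polynomial.** -/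
theorem spec_poly {R : Type} [CommRing R] [IsDomain R] (ε : R →+* ℂ) (v : R) (hv : v ≠ 1)
    (h1 : ε v = 1) (B : R[X]) (M s₁ : ℕ) (w : ℕ → ℂ)
    (h : ∀ s, s₁ ≤ s → ∃ x y : R, B.eval (v ^ s) * y = (1 - v) ^ M * x ∧ ε y ≠ 0 ∧
      ε x = w s * ε y) :
    ∃ g : ℂ[X], ∀ s, s₁ ≤ s → w s = g.eval (s : ℂ) := by
  classical
  refine poly_of_diff w (M + 1) s₁ fun s hs => ?_
  have hh : ∀ j : ℕ, ∃ x y : R, B.eval (v ^ (s + j)) * y = (1 - v) ^ M * x ∧ ε y ≠ 0 ∧
      ε x = w (s + j) * ε y := fun j => h (s + j) (by omega)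
  choose x y hxy hy hx using hh
  obtain ⟨H, hH⟩ := sum_diff v B (M + 1) s
  set Y : R := ∏ i ∈ range (M + 1 + 1), y i with hY
  set Yj : ℕ → R := fun j => ∏ i ∈ (range (M + 1 + 1)).erase j, y i with hYj
  have hYY : ∀ j ∈ range (M + 1 + 1), y j * Yj j = Y := fun j hj => mul_prod_erase _ _ hj
  have hYne : ε Y ≠ 0 := by
    rw [hY, map_prod]
    exact prod_ne_zero_iff.2 fun i _ => hy i
  have e1 : (1 - v) ^ M * ((1 - v) * H * Y) = (1 - v) ^ M *
      ∑ j ∈ range (M + 1 + 1), (-1) ^ j * ((M + 1).choose j : R) * (x j * Yj j) := by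
    have e2 : (1 - v) ^ M * ((1 - v) * H * Y) = ((1 - v) ^ (M + 1) * H) * Y := by ring
    rw [e2, ← hH, sum_mul, mul_sum]
    refine sum_congr rfl fun j hj => ?_
    rw [← hYY j hj]
    linear_combination ((-1) ^ j * ((M + 1).choose j : R) * Yj j) * hxy j
  have hv' : (1 - v) ^ M ≠ 0 := pow_ne_zero _ (sub_ne_zero.2 (Ne.symm hv))
  have e3 := congrArg ε (mul_left_cancel₀ hv' e1)
  rw [map_mul, map_mul, map_sub, map_one, h1, sub_self, zero_mul, zero_mul, map_sum] at e3
  have e4 : ∑ j ∈ range (M + 1 + 1), ε ((-1) ^ j * ((M + 1).choose j : R) * (x j * Yj j)) =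
      ε Y * ∑ j ∈ range (M + 1 + 1), (-1 : ℂ) ^ j * ((M + 1).choose j : ℂ) * w (s + j) := by
    rw [mul_sum]
    refine sum_congr rfl fun j hj => ?_
    rw [← hYY j hj]
    simp only [map_mul, map_pow, map_neg, map_one, map_natCast, hx j]
    ring
  rw [e4] at e3
  exact (mul_eq_zero.1 e3.symm).resolve_left hYne

end Pool.Agent.Q300.LM
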