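import Pool.Agent.Q300.LM.TrE

set_option autoImplicit false

/-! Motivic zeta functions of polynomials with finitely many singular points in `{f = 0}`, all of them
stably sparse. -/

namespace Pool.Agent.Q300.LM

open MvPolynomial Pool.Agent.H628R4.TP Pool.Agent.W428.MOT Pool.Agent.W375.MT
open Pool.Agent.W375.MG (JetG zetaG Good good_units ratRing_mono)
open Pool.Agent.Y229.MS (addyz itr Witr Wyz constr_Witr constr_Wyz CE ce_good fst' zeta_of_fst
  descend' Tl exyz cyz spa_addyz ind_exyz cyz_ne shn t1 zeta_iso)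
open Pool.Agent.Y229.PS (Becomes becomes_local formal_of_local stabP)
open Pool.Agent.Y229.RE (stab)
open Pool.Agent.Y229.GL (IsCoord)
open Pool.Agent.W425.ND (spa)
open Pool.Agent.W425.SM (Ind)
open Pool.Agent.W426.SM (gord IsRay)
open Pool.Agent.Q59.TR

/-- **The main theorem at the origin, all angular components, reduced form.** -/
theorem mainR {n κ r : ℕ} (hr : 1 ≤ r) (f : MvPolynomial (Fin n) ℂ) (hf : f.totalDegree ≠ 0)
    (hf0 : constantCoeff f = 0) (v : Fin r → Fin (n + (κ + κ)) → ℕ) (hv : Ind v)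
    (hv0 : ∀ j, v j ≠ 0) (c : Fin r → ℂ) (hc : ∀ j, c j ≠ 0)
    (hB : Becomes (f : MvPowerSeries (Fin n) ℂ) κ (spa v c)) :
    ∃ S : Finset (ℤ × ℤ),
      (∀ p ∈ S, 0 < p.2 ∧ ∀ c' : Polynomial ℂ, IsLocalBFunction f ((Polynomial.X + 1) * c') →
        c'.eval ((p.1 : ℂ) / p.2) = 0) ∧
      ∀ E : Set (AlgebraicClosure ℂ), Good E → fst' ℂ * zetaG f {0} E ∈ ratRing ℂ S := by
  classical
  obtain ⟨c, hc, hB, hJ⟩ := normal hc hB
  have hfc : constantCoeff f = 0 := hf0
  have hGd : (spa v c).totalDegree ≠ 0 := spa_deg1 hr v hv hv0 c hc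
  have hG0 : constantCoeff (spa v c) = 0 := spa_const v hv0 c
  have hcoe := coe_ne (ne_zero_of_deg hf)
  have hcc : MvPowerSeries.constantCoeff (f : MvPowerSeries (Fin n) ℂ) = 0 := by
    rw [Pool.Agent.Y229.PS.const_coe, hf0]
  -- the local functional equations
  have hb1 : ∀ c' : Polynomial ℂ, IsLocalBFunction f ((Polynomial.X + 1) * c') →
      IsLocalBFunction (spa v c) ((Polynomial.X + 1) *
        c'.comp (Polynomial.X + Polynomial.C (κ : ℂ))) := fun c' h =>
    (becomes_local hcoe hcc (formal_of_local h) hB).2 c' rfl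
  have hb2 : ∀ c' : Polynomial ℂ, IsLocalBFunction f ((Polynomial.X + 1) * c') →
      IsLocalBFunction (spa (exyz v) (cyz c)) ((Polynomial.X + 1) *
        (c'.comp (Polynomial.X + Polynomial.C (κ : ℂ))).comp
          (Polynomial.X + Polynomial.C ((1 : ℕ) : ℂ))) := by
    intro c' h
    rw [spa_addyz]
    exact bL_addyz hGd hG0 (hb1 c' h)
  obtain ⟨S1, hS1, hz1⟩ := ind_fst_loc hr v hv hv0 c hc
    (fun P => ∃ c' : Polynomial ℂ, IsLocalBFunction f ((Polynomial.X + 1) * c') ∧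
      P = c'.comp (Polynomial.X + Polynomial.C (κ : ℂ)))
    (by
      rintro P ⟨c', h, rfl⟩
      exact hb1 c' h)
  have hex0 : ∀ j, exyz v j ≠ 0 := by
    intro j
    refine Fin.cases ?_ (fun j => ?_) j
    · intro h
      have h1 := congrFun h (Fin.natAdd _ 0)
      simp [exyz] at h1
    · intro h
      apply hv0 j
      funext i
      have h1 := congrFun h (Fin.castAdd 2 i)
      simp only [exyz, Fin.cons_succ, Fin.append_left, Pi.zero_apply] at h1
      exact h1
  obtain ⟨S2, hS2, hz2⟩ := ind_fst_loc (by omega : 1 ≤ r + 1) (exyz v) (ind_exyz hv) hex0 (cyz c)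
    (cyz_ne hc)
    (fun P => ∃ c' : Polynomial ℂ, IsLocalBFunction f ((Polynomial.X + 1) * c') ∧
      P = (c'.comp (Polynomial.X + Polynomial.C (κ : ℂ))).comp
          (Polynomial.X + Polynomial.C ((1 : ℕ) : ℂ)))
    (by
      rintro P ⟨c', h, rfl⟩
      exact hb2 c' h)
  set S : Finset (ℤ × ℤ) := S1.image (fun q => (q.1 + κ * q.2, q.2)) ∪
    S2.image (fun q => (q.1 + ((κ + 1 : ℕ) : ℤ) * q.2, q.2)) with hS
  refine ⟨S, fun p hp => ?_, ?_⟩
  · rcases Finset.mem_union.1 hp with hp | hp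
    · obtain ⟨q, hq, rfl⟩ := Finset.mem_image.1 hp
      obtain ⟨-, hq2, ⟨a, ha, hg, rfl⟩, hq4⟩ := hS1 q hq
      refine ⟨hq2, fun c' hc' => ?_⟩
      have h6 := hq4 _ ⟨c', hc', rfl⟩
      rw [Polynomial.eval_comp] at h6
      have h7 : ((gord v a : ℤ) : ℂ) ≠ 0 := by
        exact_mod_cast (Nat.pos_iff_ne_zero.1 hg)
      have h8 : (((-((∑ i, a i : ℕ) : ℤ) + κ * (gord v a : ℤ) : ℤ) : ℂ) /
          ((gord v a : ℤ) : ℂ)) = Polynomial.eval (((-((∑ i, a i : ℕ) : ℤ) : ℤ) : ℂ) /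
          ((gord v a : ℤ) : ℂ)) (Polynomial.X + Polynomial.C (κ : ℂ)) := by
        rw [Polynomial.eval_add, Polynomial.eval_X, Polynomial.eval_C]
        push_cast at h7 ⊢
        rw [add_div, mul_div_assoc, div_self h7, mul_one]
      simp only
      rw [h8, h6]
    · obtain ⟨q, hq, rfl⟩ := Finset.mem_image.1 hp
      obtain ⟨-, hq2, ⟨a, ha, hg, rfl⟩, hq4⟩ := hS2 q hq
      refine ⟨hq2, fun c' hc' => ?_⟩
      have h6 := hq4 _ ⟨c', hc', rfl⟩
      rw [Polynomial.eval_comp, Polynomial.eval_comp] at h6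
      have h7 : ((gord (exyz v) a : ℤ) : ℂ) ≠ 0 := by
        exact_mod_cast (Nat.pos_iff_ne_zero.1 hg)
      have h8 : (((-((∑ i, a i : ℕ) : ℤ) + ((κ + 1 : ℕ) : ℤ) * (gord (exyz v) a : ℤ) : ℤ) : ℂ) /
          ((gord (exyz v) a : ℤ) : ℂ)) = Polynomial.eval (Polynomial.eval
            (((-((∑ i, a i : ℕ) : ℤ) : ℤ) : ℂ) / ((gord (exyz v) a : ℤ) : ℂ))
            (Polynomial.X + Polynomial.C ((1 : ℕ) : ℂ)))
            (Polynomial.X + Polynomial.C (κ : ℂ)) := by
        rw [Polynomial.eval_add, Polynomial.eval_X, Polynomial.eval_C, Polynomial.eval_add,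
          Polynomial.eval_X, Polynomial.eval_C]
        push_cast at h7 ⊢
        rw [add_div, mul_div_assoc, div_self h7, mul_one]
        ring
      simp only
      rw [h8, h6]
  · -- the zeta functions
    intro E hE0
    have hE : CE E := ce_good hE0
    have hI := fisoE_itr f κ
    have hcard : n + 2 * κ = n + (κ + κ) := by ring
    -- at level κ
    have z1 := hz1 _ hE0
    rw [zeta_eqE rfl hJ hE, zeta_eqE hcard hI hE] at z1
    obtain ⟨Z1, hZ1, e1⟩ := loc_split f hE κ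
    have w1 : fst' ℂ * zetaG (itr f κ) (Witr {0} κ) E ∈ ratRing ℂ S1 := by
      rw [e1, mul_add]
      exact (ratRing ℂ _).add_mem z1 (ratRing_mono (Set.empty_subset _) hZ1)
    -- at level κ + 1
    have z2 := hz2 _ hE0
    rw [spa_addyz] at z2
    obtain ⟨Z2, hZ2, e2⟩ := loc_split (spa v c) hE 1
    obtain ⟨Z3, hZ3, e3⟩ := loc_split (itr f κ) hE 1
    obtain ⟨Z4, hZ4, e4⟩ := loc_split f hE (κ + 1)
    have e5 : zetaG (addyz (spa v c)) (Wyz {0}) E =
        zetaG (addyz (itr f κ)) (Wyz {0}) E := by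
      rw [zeta_addyzE rfl hJ hE, zeta_addyzE hcard hI hE]
    have w2 : fst' ℂ * zetaG (addyz (itr f κ)) (Wyz (Witr {0} κ)) E ∈
        ratRing ℂ S2 := by
      have e6 : zetaG (addyz (itr f κ)) (Wyz (Witr {0} κ)) E =
          zetaG (addyz (spa v c)) {0} E + Z2 - Z3 + Z4 := by
        have e2' : zetaG (addyz (spa v c)) (Wyz {0}) E =
          zetaG (addyz (spa v c)) {0} E + Z2 := e2
        have e3' : zetaG (addyz (itr f κ)) (Wyz {0}) E =
          zetaG (addyz (itr f κ)) {0} E + Z3 := e3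
        have e4' : zetaG (addyz (itr f κ)) (Wyz (Witr {0} κ)) E =
          zetaG (addyz (itr f κ)) {0} E + Z4 := e4
        rw [e4', ← e2', e5, e3']
        ring
      rw [e6, mul_add, mul_sub, mul_add]
      exact (ratRing ℂ _).add_mem ((ratRing ℂ _).sub_mem ((ratRing ℂ _).add_mem z2
        (ratRing_mono (Set.empty_subset _) hZ2)) (ratRing_mono (Set.empty_subset _) hZ3))
        (ratRing_mono (Set.empty_subset _) hZ4)
    have z3 := descend' f (W := {0}) constr_zero hE κ S1 S2 (fun p hp => (hS1 p hp).2.1)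
      (fun p hp => (hS2 p hp).2.1) w1 w2
    refine ratRing_mono ?_ z3
    rintro p (⟨q, hq, rfl⟩ | ⟨q, hq, rfl⟩)
    · exact Finset.mem_coe.2 (Finset.mem_union_left _
        (Finset.mem_image_of_mem (fun q : ℤ × ℤ => (q.1 + (κ : ℤ) * q.2, q.2)) hq))
    · exact Finset.mem_coe.2 (Finset.mem_union_right _
        (Finset.mem_image_of_mem (fun q : ℤ × ℤ => (q.1 + ((κ + 1 : ℕ) : ℤ) * q.2, q.2)) hq))

section glob
variable {n : ℕ}

/-- a complex point as a geometric point -/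
noncomputable def ip (p : Fin n → ℂ) : Pt ℂ (Fin n) := fun i =>
  algebraMap ℂ (AlgebraicClosure ℂ) (p i)

theorem exists_ip (w : Pt ℂ (Fin n)) : ∃ p : Fin n → ℂ, w = ip p := by
  have h : ∀ x : AlgebraicClosure ℂ, ∃ y : ℂ, algebraMap ℂ (AlgebraicClosure ℂ) y = x :=
    (IsAlgClosed.algebraMap_bijective_of_isIntegral (k := ℂ) (K := AlgebraicClosure ℂ)).surjective
  choose g hg using h
  exact ⟨fun i => g (w i), funext fun i => (hg _).symm⟩

theorem aeval_ip (p : Fin n → ℂ) (f : MvPolynomial (Fin n) ℂ) :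
    aeval (ip p) f = algebraMap ℂ (AlgebraicClosure ℂ) (eval p f) := by
  have h := MvPolynomial.aeval_algebraMap_apply (AlgebraicClosure ℂ) p f
  rw [MvPolynomial.aeval_eq_eval] at h
  exact h

theorem constr_ip (p : Fin n → ℂ) : Constr ({ip p} : Set (Pt ℂ (Fin n))) := by
  have h2 : ({ip p} : Set (Pt ℂ (Fin n))) =
      {z | ∀ i, z i = algebraMap ℂ (AlgebraicClosure ℂ) (p i)} := by
    ext z
    rw [Set.mem_singleton_iff, Set.mem_ofPred_eq]
    constructor
    · rintro rfl i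
      rfl
    · intro h
      funext i
      exact h i
  rw [h2]
  exact Constr.all fun i => Constr.eq (IsPF.coord _) (IsPF.const _)

/-- the translated polynomial -/
noncomputable def sh (f : MvPolynomial (Fin n) ℂ) (p : Fin n → ℂ) : MvPolynomial (Fin n) ℂ :=
  aeval (fun i => X i + C (p i)) f

theorem sh_eq (f : MvPolynomial (Fin n) ℂ) (p : Fin n → ℂ) : sh f p = trl p f := rfl

theorem zeta_sh (f : MvPolynomial (Fin n) ℂ) (p : Fin n → ℂ) {E : Set (AlgebraicClosure ℂ)}
    (hE : CE E) : zetaG f {ip p} E = zetaG (sh f p) {0} E := by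
  have h := zeta_iso Pool.Agent.Z864.MS.three rfl (trl p) f (constr_ip p) hE
  rw [← h, sh_eq]
  congr 1
  ext w
  rw [Set.mem_ofPred_eq, Set.mem_singleton_iff, Set.mem_singleton_iff]
  have h1 : ∀ i, aeval w (trl p (X i)) = w i + ip p i := by
    intro i
    rw [trl_apply, aeval_X, map_add, aeval_X, algHom_C]
    rfl
  simp only [h1]
  constructor
  · intro h2
    funext i
    have h3 : w i + ip p i = ip p i := congrFun h2 i
    exact add_eq_right.1 h3
  · rintro rfl
    funext i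
    exact zero_add _

theorem local_of_global {f : MvPolynomial (Fin n) ℂ} {b : Polynomial ℂ} (hb : IsBFunction f b)
    (p : Fin n → ℂ) : IsLocalBFunction (sh f p) b := by
  have e : sh f p = aeval (fun i => C (p i) + X i) f := by
    unfold sh
    congr 2
    funext i
    exact add_comm _ _
  rw [e]
  refine Pool.Agent.Y229.GL.formal_local hb (Pool.Agent.Y229.GL.coord_shift p) ?_
  have h2 := MvPolynomial.comp_aeval_apply (R := ℂ)
    (f := fun i => (MvPolynomial.C (p i) + MvPolynomial.X i : MvPolynomial (Fin n) ℂ))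
    (φ := MvPolynomial.coeToMvPowerSeries.algHom ℂ (σ := Fin n) (R := ℂ)) f
  simp only [MvPolynomial.coeToMvPowerSeries.algHom_apply, Algebra.algebraMap_self,
    MvPowerSeries.map_id, RingHom.id_apply] at h2
  exact h2.symm

/-- the part of the jets with origin outside of `{f = 0}` -/
theorem zeta_off (f : MvPolynomial (Fin n) ℂ) {W : Set (Pt ℂ (Fin n))}
    (hW : ∀ w ∈ W, aeval w f ≠ 0) (E : Set (AlgebraicClosure ℂ)) (S : Set (ℤ × ℤ)) :
    zetaG f W E ∈ ratRing ℂ S := by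
  obtain ⟨M₀, hM₀⟩ := Pool.Agent.W417.MT.K0.main ℂ
  have h : zetaG f W E = PowerSeries.C (PowerSeries.coeff 0 (zetaG f W E)) := by
    ext N
    rw [PowerSeries.coeff_C]
    by_cases hN : N = 0
    · subst hN
      rw [if_pos rfl]
    · rw [if_neg hN]
      have h1 : JetG f W E N = ∅ := by
        ext z
        simp only [JetG, Set.mem_ofPred_eq, Set.mem_empty_iff_false, iff_false]
        rintro ⟨h1, h2, -⟩
        have h3 := h2 0 (Nat.pos_of_ne_zero hN)
        rw [Pool.Agent.Z864.MS.coeff_zero_aeval] at h3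
        exact hW _ h1 h3
      rw [zetaG, PowerSeries.coeff_mk, h1, ← hM₀, Pool.Agent.W749.MT.χ_empty, map_zero, zero_mul]
  rw [h]
  exact Pool.Agent.W63.MTFin.C_mem _ _

/-- finite sets of points -/
theorem zeta_fin (f : MvPolynomial (Fin n) ℂ) {E : Set (AlgebraicClosure ℂ)} (hE : CE E)
    (R : Set (ℤ × ℤ)) (Q : Finset (Fin n → ℂ))
    (h : ∀ p ∈ Q, fst' ℂ * zetaG f {ip p} E ∈ ratRing ℂ R) :
    Constr (ip '' (Q : Set (Fin n → ℂ))) ∧
      fst' ℂ * zetaG f (ip '' (Q : Set (Fin n → ℂ))) E ∈ ratRing ℂ R := by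
  classical
  induction Q using Finset.induction_on with
  | empty =>
    rw [Finset.coe_empty, Set.image_empty, zetaG_empty f hE, mul_zero]
    exact ⟨Constr.empty, (ratRing ℂ R).zero_mem⟩
  | insert p Q hp ih =>
    obtain ⟨h1, h2⟩ := ih fun q hq => h q (Finset.mem_insert_of_mem hq)
    have hinj : Function.Injective (ip : (Fin n → ℂ) → Pt ℂ (Fin n)) := by
      intro p q hpq
      funext i
      exact (algebraMap ℂ (AlgebraicClosure ℂ)).injective (congrFun hpq i)
    rw [Finset.coe_insert, Set.image_insert_eq, ← Set.singleton_union]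
    refine ⟨(constr_ip p).union h1, ?_⟩
    rw [zetaG_union f (constr_ip p) h1 ?_ hE, mul_add]
    · exact (ratRing ℂ R).add_mem (h p (Finset.mem_insert_self _ _)) h2
    · rw [Set.disjoint_singleton_left]
      rintro ⟨q, hq, hqp⟩
      rw [hinj hqp] at hq
      exact hp hq

/-- The germ of `f` at `p` is stably sparse: for some `κ` the germ of `f(p + x) + ∑_{i ≤ κ} y_i z_i` at
the origin becomes, in suitable formal coordinates and up to a unit factor, a polynomial
`∑_j c_j X ^ (v j)`, at least one term, `c_j ≠ 0`, with affinely independent exponents `v j ≠ 0`. -/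
def StablySparseAt (f : MvPolynomial (Fin n) ℂ) (p : Fin n → ℂ) : Prop :=
  ∃ (κ r : ℕ) (v : Fin r → Fin (n + (κ + κ)) → ℕ) (c : Fin r → ℂ), 1 ≤ r ∧
    AffineIndependent ℚ (fun j => (fun i => (v j i : ℚ) : Fin (n + (κ + κ)) → ℚ)) ∧
    (∀ j, v j ≠ 0) ∧ (∀ j, c j ≠ 0) ∧
    Becomes ((aeval (fun i => X i + C (p i)) f : MvPolynomial (Fin n) ℂ) :
      MvPowerSeries (Fin n) ℂ) κ (∑ j, C (c j) * ∏ i, X i ^ v j i)

/-- at one point -/
theorem at_point (f : MvPolynomial (Fin n) ℂ) (hf : f.totalDegree ≠ 0) (p : Fin n → ℂ)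
    (hp : eval p f = 0) (h : StablySparseAt f p) :
    ∃ S : Finset (ℤ × ℤ),
      (∀ q ∈ S, 0 < q.2 ∧ ∀ c' : Polynomial ℂ, IsLocalBFunction (sh f p)
        ((Polynomial.X + 1) * c') → c'.eval ((q.1 : ℂ) / q.2) = 0) ∧
      ∀ E : Set (AlgebraicClosure ℂ), Good E → fst' ℂ * zetaG f {ip p} E ∈ ratRing ℂ S := by
  obtain ⟨κ, r, v, c, hr, hv, hv0, hc, hB⟩ := h
  have hd : (sh f p).totalDegree ≠ 0 := by
    rw [sh_eq]
    exact deg_iso (trl p) hf
  have h0 : constantCoeff (sh f p) = 0 := by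
    rw [sh_eq, trl_const, hp]
  obtain ⟨S, hS, hz⟩ := mainR hr (sh f p) hd h0 v hv hv0 c hc hB
  refine ⟨S, hS, fun E hE => ?_⟩
  rw [zeta_sh f p (ce_good hE)]
  exact hz E hE

/-- at one point, for the Bernstein-Sato polynomial itself -/
theorem at_point' (f : MvPolynomial (Fin n) ℂ) (hf : f.totalDegree ≠ 0) (p : Fin n → ℂ)
    (hp : eval p f = 0) (h : StablySparseAt f p) :
    ∃ S : Finset (ℤ × ℤ),
      (∀ q ∈ S, 0 < q.2 ∧ ∀ b : Polynomial ℂ, IsLocalBFunction (sh f p) b →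
        b.eval ((q.1 : ℂ) / q.2) = 0) ∧
      ∀ E : Set (AlgebraicClosure ℂ), Good E → zetaG f {ip p} E ∈ ratRing ℂ S := by
  classical
  obtain ⟨S, hS, hz⟩ := at_point f hf p hp h
  have hd : (sh f p).totalDegree ≠ 0 := by
    rw [sh_eq]
    exact deg_iso (trl p) hf
  have h0 : constantCoeff (sh f p) = 0 := by
    rw [sh_eq, trl_const, hp]
  refine ⟨insert (-1, 1) S, fun q hq => ?_, fun E hE => ?_⟩
  · rcases Finset.mem_insert.1 hq with rfl | hq
    · refine ⟨one_pos, fun b hb => ?_⟩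
      obtain ⟨c', rfl⟩ := factorL hd h0 hb
      simp
    · refine ⟨(hS q hq).1, fun b hb => ?_⟩
      obtain ⟨c', rfl⟩ := factorL hd h0 hb
      rw [Polynomial.eval_mul, (hS q hq).2 c' hb, mul_zero]
  · have h1 := zeta_of_fst f {ip p} E _ (hz E hE)
    rwa [Finset.coe_insert]

/-- **Finitely many singular points, all stably sparse.** -/
theorem globalR (f : MvPolynomial (Fin n) ℂ) (hf : f.totalDegree ≠ 0)
    (hfin : {p : Fin n → ℂ | eval p f = 0 ∧ ∀ j, eval p (pderiv j f) = 0}.Finite)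
    (h : ∀ p : Fin n → ℂ, eval p f = 0 → (∀ j, eval p (pderiv j f) = 0) →
      StablySparseAt f p) :
    ∃ S : Finset (ℤ × ℤ),
      (∀ q ∈ S, 0 < q.2 ∧ ∀ c : Polynomial ℂ, IsBFunction f ((Polynomial.X + 1) * c) →
        c.eval ((q.1 : ℂ) / q.2) = 0) ∧
      ∀ (W : Set (Pt ℂ (Fin n))) (E : Set (AlgebraicClosure ℂ)), Constr W → Good E →
        fst' ℂ * zetaG f W E ∈ ratRing ℂ S := by
  classical
  set P := hfin.toFinset with hP
  have hPm : ∀ p, p ∈ P ↔ eval p f = 0 ∧ ∀ j, eval p (pderiv j f) = 0 := fun p => by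
    rw [hP, Set.Finite.mem_toFinset]
    rfl
  have hloc : ∀ p : Fin n → ℂ, ∃ S : Finset (ℤ × ℤ), p ∈ P →
      (∀ q ∈ S, 0 < q.2 ∧ ∀ c' : Polynomial ℂ, IsLocalBFunction (sh f p)
        ((Polynomial.X + 1) * c') → c'.eval ((q.1 : ℂ) / q.2) = 0) ∧
      ∀ E : Set (AlgebraicClosure ℂ), Good E → fst' ℂ * zetaG f {ip p} E ∈ ratRing ℂ S := by
    intro p
    by_cases hp : p ∈ P
    · obtain ⟨h1, h2⟩ := (hPm p).1 hp
      obtain ⟨S, hS⟩ := at_point f hf p h1 (h p h1 h2)
      exact ⟨S, fun _ => hS⟩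
    · exact ⟨∅, fun h => absurd h hp⟩
  choose T hT using hloc
  set S : Finset (ℤ × ℤ) := P.biUnion T with hS
  refine ⟨S, fun q hq => ?_, fun W E hW hE => ?_⟩
  · obtain ⟨p, hp, hq⟩ := Finset.mem_biUnion.1 hq
    exact ⟨((hT p hp).1 q hq).1, fun c hc => ((hT p hp).1 q hq).2 c (local_of_global hc p)⟩
  · have hCE : CE E := ce_good hE
    set Q : Finset (Fin n → ℂ) := P.filter fun p => ip p ∈ W with hQ
    obtain ⟨c1, m1⟩ := zeta_fin f hCE (S : Set (ℤ × ℤ)) Q fun p hp => by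
      have hp' := (Finset.mem_filter.1 hp).1
      refine ratRing_mono ?_ ((hT p hp').2 E hE)
      intro q hq
      exact Finset.mem_coe.2 (Finset.mem_biUnion.2 ⟨p, hp', hq⟩)
    set V : Set (Pt ℂ (Fin n)) := ip '' (Q : Set (Fin n → ℂ)) with hV
    have cf : Constr {w : Pt ℂ (Fin n) | aeval w f ≠ 0} := by
      have := (Constr.eqz (IsPF.poly (K := ℂ) (ι := Fin n) f)).not
      exact this
    set A : Set (Pt ℂ (Fin n)) := W ∩ {w | aeval w f ≠ 0} with hA
    set B : Set (Pt ℂ (Fin n)) := (W ∩ {w | ¬ aeval w f ≠ 0}) ∩ {w | w ∉ V} with hB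
    have cA : Constr A := hW.inter cf
    have cB : Constr B := (hW.inter cf.not).inter c1.not
    have hWe : W = (A ∪ B) ∪ V := by
      ext w
      simp only [hA, hB, Set.mem_union, Set.mem_inter_iff, Set.mem_ofPred_eq]
      constructor
      · intro hw
        by_cases h1 : aeval w f ≠ 0
        · exact Or.inl (Or.inl ⟨hw, h1⟩)
        · by_cases h2 : w ∈ V
          · exact Or.inr h2
          · exact Or.inl (Or.inr ⟨⟨hw, h1⟩, h2⟩)
      · rintro ((⟨hw, -⟩ | ⟨⟨hw, -⟩, -⟩) | ⟨p, hp, rfl⟩)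
        · exact hw
        · exact hw
        · exact (Finset.mem_filter.1 hp).2
    have d1 : Disjoint A B := by
      rw [Set.disjoint_left]
      rintro w ⟨-, h1⟩ ⟨⟨-, h2⟩, -⟩
      exact h2 h1
    have d2 : Disjoint (A ∪ B) V := by
      rw [Set.disjoint_left]
      rintro w (⟨-, h1⟩ | ⟨-, h1⟩) h2
      · obtain ⟨p, hp, rfl⟩ := h2
        have h3 := ((hPm p).1 (Finset.mem_filter.1 hp).1).1
        apply h1
        rw [aeval_ip, h3, map_zero]
      · exact h1 h2
    rw [hWe, zetaG_union f (cA.union cB) c1 d2 hCE, zetaG_union f cA cB d1 hCE, mul_add, mul_add]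
    refine (ratRing ℂ _).add_mem ((ratRing ℂ _).add_mem
      ((ratRing ℂ _).mul_mem (fst_mem _) (zeta_off f (fun w hw => hw.2) E _)) ?_) m1
    have h4 := (smooth_fst f hCE cB (by
      rintro w ⟨⟨hw, h1⟩, h2⟩
      by_contra hcon
      push Not at hcon
      obtain ⟨p, rfl⟩ := exists_ip w
      have h5 : ∀ g : MvPolynomial (Fin n) ℂ, aeval (ip p) g = 0 → eval p g = 0 := by
        intro g hg
        rw [aeval_ip] at hg
        exact (map_eq_zero _).1 hg
      apply h2
      refine ⟨p, Finset.mem_coe.2 (Finset.mem_filter.2 ⟨(hPm p).2 ⟨h5 f (not_not.1 h1), fun j =>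
        h5 _ (hcon j)⟩, hw⟩), rfl⟩))
    exact ratRing_mono (Set.empty_subset _) h4

/-- **Finitely many singular points, all stably sparse**, for the Bernstein-Sato polynomial. -/
theorem global (f : MvPolynomial (Fin n) ℂ) (hf : f.totalDegree ≠ 0)
    (hfin : {p : Fin n → ℂ | eval p f = 0 ∧ ∀ j, eval p (pderiv j f) = 0}.Finite)
    (h : ∀ p : Fin n → ℂ, eval p f = 0 → (∀ j, eval p (pderiv j f) = 0) →
      StablySparseAt f p) :
    ∃ S : Finset (ℤ × ℤ),
      (∀ q ∈ S, 0 < q.2 ∧ ∀ b : Polynomial ℂ, IsBFunction f b →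
        b.eval ((q.1 : ℂ) / q.2) = 0) ∧
      ∀ (W : Set (Pt ℂ (Fin n))) (E : Set (AlgebraicClosure ℂ)), Constr W → Good E →
        zetaG f W E ∈ ratRing ℂ S := by
  classical
  obtain ⟨S, hS, hz⟩ := globalR f hf hfin h
  refine ⟨insert (-1, 1) S, fun q hq => ?_, fun W E hW hE => ?_⟩
  · have h0 : ∀ b : Polynomial ℂ, IsBFunction f b → ∃ c, b = (Polynomial.X + 1) * c := by
      intro b hb
      exact Pool.Agent.Y229.PS.exists_factor (Pool.Agent.Y229.GL.root_neg_one f hf b hb)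
    rcases Finset.mem_insert.1 hq with rfl | hq
    · refine ⟨one_pos, fun b hb => ?_⟩
      obtain ⟨c, rfl⟩ := h0 b hb
      simp
    · refine ⟨(hS q hq).1, fun b hb => ?_⟩
      obtain ⟨c, rfl⟩ := h0 b hb
      rw [Polynomial.eval_mul, (hS q hq).2 c hb, mul_zero]
  · have h1 := zeta_of_fst f W E _ (hz W E hW hE)
    rwa [Finset.coe_insert]

end glob

end Pool.Agent.Q300.LM
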