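import Pool.Agent.Q59.TR.MotL

set_option autoImplicit false

/-! Formal coordinates have inverses (up to any order). -/

namespace Pool.Agent.Q300.LM

open MvPolynomial
open Pool.Agent.Y229.GL (IsCoord)
open Pool.Agent.Q59.TR (lin lin_add lin_C lin_mul lin_X coeff_lin)

variable {n : ℕ}

/-- all the coefficients of degree `< m` vanish -/
def O (m : ℕ) (g : MvPowerSeries (Fin n) ℂ) : Prop :=
  ∀ d : Fin n →₀ ℕ, d.degree < m → MvPowerSeries.coeff d g = 0

theorem o_iff (m : ℕ) (g : MvPowerSeries (Fin n) ℂ) : O m g ↔ (m : ℕ∞) ≤ g.order :=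
  ⟨fun h => MvPowerSeries.nat_le_order h, fun h d hd => MvPowerSeries.coeff_of_lt_order
    (lt_of_lt_of_le (by exact_mod_cast hd) h)⟩

theorem O.add {m : ℕ} {g h : MvPowerSeries (Fin n) ℂ} (hg : O m g) (hh : O m h) :
    O m (g + h) := fun d hd => by rw [map_add, hg d hd, hh d hd, add_zero]

theorem O.neg {m : ℕ} {g : MvPowerSeries (Fin n) ℂ} (hg : O m g) : O m (-g) := fun d hd => by
  rw [map_neg, hg d hd, neg_zero]

theorem O.sub {m : ℕ} {g h : MvPowerSeries (Fin n) ℂ} (hg : O m g) (hh : O m h) :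
    O m (g - h) := fun d hd => by rw [map_sub, hg d hd, hh d hd, sub_zero]

theorem O.zero (m : ℕ) : O m (0 : MvPowerSeries (Fin n) ℂ) := fun _ _ => map_zero _

theorem O.sum {m : ℕ} {α : Type} (s : Finset α) (g : α → MvPowerSeries (Fin n) ℂ)
    (h : ∀ i ∈ s, O m (g i)) : O m (∑ i ∈ s, g i) := fun d hd => by
  rw [map_sum]
  exact Finset.sum_eq_zero fun i hi => h i hi d hd

theorem O.mono {m m' : ℕ} {g : MvPowerSeries (Fin n) ℂ} (h : O m g) (hm : m' ≤ m) : O m' g :=
  fun d hd => h d (lt_of_lt_of_le hd hm)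

theorem O.mul {m m' : ℕ} {g h : MvPowerSeries (Fin n) ℂ} (hg : O m g) (hh : O m' h) :
    O (m + m') (g * h) := by
  rw [o_iff] at hg hh ⊢
  refine le_trans ?_ MvPowerSeries.le_order_mul
  push_cast
  exact add_le_add hg hh

theorem O.left {m : ℕ} {g : MvPowerSeries (Fin n) ℂ} (h : MvPowerSeries (Fin n) ℂ) (hg : O m g) :
    O m (h * g) := by
  have h1 : O 0 h := fun d hd => absurd hd (Nat.not_lt_zero _)
  have h2 := h1.mul hg
  rwa [zero_add] at h2

theorem o_one {g : MvPowerSeries (Fin n) ℂ} (h : MvPowerSeries.constantCoeff g = 0) : O 1 g := by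
  intro d hd
  have h1 : d = 0 := by
    rw [Nat.lt_one_iff] at hd
    exact (Finsupp.degree_eq_zero_iff d).1 hd
  rw [h1, MvPowerSeries.coeff_zero_eq_constantCoeff_apply, h]

theorem o_trunc (m : ℕ) (g h : MvPowerSeries (Fin n) ℂ) :
    O m (g - h) ↔ MvPowerSeries.truncTotal m g = MvPowerSeries.truncTotal m h := by
  constructor
  · intro h1
    ext d
    by_cases hd : d.degree < m
    · rw [MvPowerSeries.coeff_truncTotal _ hd, MvPowerSeries.coeff_truncTotal _ hd]
      have h2 := h1 d hd
      rw [map_sub, sub_eq_zero] at h2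
      exact h2
    · rw [MvPowerSeries.coeff_truncTotal_eq_zero _ (not_lt.1 hd),
        MvPowerSeries.coeff_truncTotal_eq_zero _ (not_lt.1 hd)]
  · intro h1 d hd
    have h2 := congrArg (MvPolynomial.coeff d) h1
    rw [MvPowerSeries.coeff_truncTotal _ hd, MvPowerSeries.coeff_truncTotal _ hd] at h2
    rw [map_sub, h2, sub_self]

theorem tt_left {a b : ℕ} {k : ℕ} {φ φ' : Fin a → MvPowerSeries (Fin b) ℂ}
    (hφ : ∀ i, MvPowerSeries.constantCoeff (φ i) = 0)
    (hφ' : ∀ i, MvPowerSeries.constantCoeff (φ' i) = 0)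
    (h : ∀ i, MvPowerSeries.truncTotal k (φ i) = MvPowerSeries.truncTotal k (φ' i))
    (g : MvPowerSeries (Fin a) ℂ) : MvPowerSeries.truncTotal k (MvPowerSeries.subst φ g) =
      MvPowerSeries.truncTotal k (MvPowerSeries.subst φ' g) := by
  rw [MvPowerSeries.truncTotal_subst hφ, MvPowerSeries.truncTotal_subst hφ']
  simp only [h]

theorem tt_right {a b : ℕ} {k : ℕ} {φ : Fin a → MvPowerSeries (Fin b) ℂ}
    (hφ : ∀ i, MvPowerSeries.constantCoeff (φ i) = 0) {g g' : MvPowerSeries (Fin a) ℂ}
    (h : MvPowerSeries.truncTotal k g = MvPowerSeries.truncTotal k g') :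
    MvPowerSeries.truncTotal k (MvPowerSeries.subst φ g) =
      MvPowerSeries.truncTotal k (MvPowerSeries.subst φ g') := by
  have h1 := MvPowerSeries.truncTotal_subst_eq_truncTotal_truncTotal_subst (k := k) (f := g) hφ
  have h2 := MvPowerSeries.truncTotal_subst_eq_truncTotal_truncTotal_subst (k := k) (f := g') hφ
  rw [h1, h2, h]

/-- Taylor's formula, for polynomials -/
theorem taylor_pol {m : ℕ} (hm : 1 ≤ m) {ψ δ : Fin n → MvPowerSeries (Fin n) ℂ}
    (hψ : ∀ i, MvPowerSeries.constantCoeff (ψ i) = 0) (hδ : ∀ i, O m (δ i))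
    (p : MvPolynomial (Fin n) ℂ) :
    O m (aeval (fun i => ψ i + δ i) p - aeval ψ p) ∧
    O 1 (aeval ψ p - MvPowerSeries.C (constantCoeff p)) ∧
    O (m + 1) (aeval (fun i => ψ i + δ i) p - aeval ψ p -
      ∑ j, MvPowerSeries.C (lin j p) * δ j) := by
  classical
  induction p using MvPolynomial.induction_on with
  | C c =>
    refine ⟨?_, ?_, ?_⟩
    · rw [algHom_C, algHom_C, sub_self]
      exact O.zero m
    · rw [algHom_C, constantCoeff_C]
      have : (algebraMap ℂ (MvPowerSeries (Fin n) ℂ)) c = MvPowerSeries.C c := rfl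
      rw [this, sub_self]
      exact O.zero 1
    · rw [algHom_C, algHom_C, sub_self, zero_sub]
      refine (O.sum _ _ fun j _ => ?_).neg
      rw [lin_C, map_zero, zero_mul]
      exact O.zero _
  | add p q hp hq =>
    obtain ⟨p1, p2, p3⟩ := hp
    obtain ⟨q1, q2, q3⟩ := hq
    refine ⟨?_, ?_, ?_⟩
    · rw [map_add, map_add]
      have := p1.add q1
      convert this using 1
      ring
    · rw [map_add, map_add, map_add]
      have := p2.add q2
      convert this using 1
      ring
    · rw [map_add, map_add]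
      have := p3.add q3
      convert this using 1
      have h1 : ∑ j, MvPowerSeries.C (lin j (p + q)) * δ j =
          ∑ j, MvPowerSeries.C (lin j p) * δ j + ∑ j, MvPowerSeries.C (lin j q) * δ j := by
        rw [← Finset.sum_add_distrib]
        refine Finset.sum_congr rfl fun j _ => ?_
        rw [lin_add, map_add, add_mul]
      rw [h1]
      ring
  | mul_X p i hp =>
    obtain ⟨p1, p2, p3⟩ := hp
    set P := aeval ψ p with hP
    set P' := aeval (fun i => ψ i + δ i) p with hP'
    refine ⟨?_, ?_, ?_⟩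
    · rw [map_mul, map_mul, aeval_X, aeval_X, ← hP, ← hP']
      have h1 : P' * (ψ i + δ i) - P * ψ i = (ψ i + δ i) * (P' - P) + P * δ i := by ring
      rw [h1]
      exact (p1.left _).add ((hδ i).left _)
    · rw [map_mul, aeval_X, map_mul, constantCoeff_X, mul_zero, map_zero, sub_zero]
      exact (o_one (hψ i)).left _
    · rw [map_mul, map_mul, aeval_X, aeval_X, ← hP, ← hP']
      have h1 : ∑ j, MvPowerSeries.C (lin j (p * X i)) * δ j =
          MvPowerSeries.C (constantCoeff p) * δ i := by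
        rw [Finset.sum_eq_single i]
        · rw [lin_mul, lin_X, if_pos rfl, constantCoeff_X, zero_mul, add_zero, mul_one]
        · intro j _ hj
          rw [lin_mul, lin_X, if_neg (Ne.symm hj), constantCoeff_X, zero_mul, add_zero, mul_zero,
            map_zero, zero_mul]
        · intro h
          exact absurd (Finset.mem_univ _) h
      rw [h1]
      have h2 : P' * (ψ i + δ i) - P * ψ i - MvPowerSeries.C (constantCoeff p) * δ i =
          (P' - P) * (ψ i + δ i) + (P - MvPowerSeries.C (constantCoeff p)) * δ i := by ring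
      rw [h2]
      refine O.add ?_ ?_
      · exact p1.mul ((o_one (hψ i)).add ((hδ i).mono hm))
      · have h3 := p2.mul (hδ i)
        rwa [add_comm] at h3

theorem const_of_o {m : ℕ} (hm : 1 ≤ m) {g : MvPowerSeries (Fin n) ℂ} (h : O m g) :
    MvPowerSeries.constantCoeff g = 0 := by
  rw [← MvPowerSeries.coeff_zero_eq_constantCoeff_apply]
  exact h 0 (by rw [map_zero]; omega)

/-- Taylor's formula, for power series -/
theorem taylor {m : ℕ} (hm : 1 ≤ m) {ψ δ : Fin n → MvPowerSeries (Fin n) ℂ}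
    (hψ : ∀ i, MvPowerSeries.constantCoeff (ψ i) = 0) (hδ : ∀ i, O m (δ i))
    (g : MvPowerSeries (Fin n) ℂ) :
    O (m + 1) (MvPowerSeries.subst (fun i => ψ i + δ i) g - MvPowerSeries.subst ψ g -
      ∑ j, MvPowerSeries.C (MvPowerSeries.coeff (Finsupp.single j 1) g) * δ j) := by
  have hψδ : ∀ i, MvPowerSeries.constantCoeff (ψ i + δ i) = 0 := fun i => by
    rw [map_add, hψ, const_of_o hm (hδ i), add_zero]
  obtain ⟨-, -, h1⟩ := taylor_pol hm hψ hδ (MvPowerSeries.truncTotal (m + 1) g)
  have h2 : ∀ j, lin j (MvPowerSeries.truncTotal (m + 1) g) =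
      MvPowerSeries.coeff (Finsupp.single j 1) g := by
    intro j
    rw [← coeff_lin, MvPowerSeries.coeff_truncTotal]
    rw [Finsupp.degree_single]
    omega
  simp only [h2] at h1
  have h3 : O (m + 1) (MvPowerSeries.subst (fun i => ψ i + δ i) g -
      aeval (fun i => ψ i + δ i) (MvPowerSeries.truncTotal (m + 1) g)) := by
    rw [o_trunc, MvPowerSeries.truncTotal_subst_eq_truncTotal_truncTotal_subst hψδ,
      MvPowerSeries.subst_coe]
  have h4 : O (m + 1) (MvPowerSeries.subst ψ g -
      aeval ψ (MvPowerSeries.truncTotal (m + 1) g)) := by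
    rw [o_trunc, MvPowerSeries.truncTotal_subst_eq_truncTotal_truncTotal_subst hψ,
      MvPowerSeries.subst_coe]
  have h5 := (h1.add h3).sub h4
  convert h5 using 1
  ring

/-- the matrix of the linear parts -/
noncomputable def LinM (φ : Fin n → MvPowerSeries (Fin n) ℂ) : Matrix (Fin n) (Fin n) ℂ :=
  Matrix.of fun i j => MvPowerSeries.coeff (Finsupp.single j 1) (φ i)

theorem isCoord_iff (φ : Fin n → MvPowerSeries (Fin n) ℂ) : IsCoord φ ↔ (LinM φ).det ≠ 0 :=
  Iff.rfl

/-- Newton's method -/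
theorem newton {φ : Fin n → MvPowerSeries (Fin n) ℂ} (hφ : IsCoord φ)
    (hφ0 : ∀ i, MvPowerSeries.constantCoeff (φ i) = 0) (m : ℕ) :
    ∃ ψ : Fin n → MvPowerSeries (Fin n) ℂ, (∀ i, MvPowerSeries.constantCoeff (ψ i) = 0) ∧
      LinM ψ = (LinM φ)⁻¹ ∧ ∀ i, O (m + 2) (MvPowerSeries.subst ψ (φ i) - MvPowerSeries.X i) := by
  classical
  have hdet : IsUnit (LinM φ).det := isUnit_iff_ne_zero.2 hφ
  set B := (LinM φ)⁻¹ with hB
  have hAB : ∀ i k, ∑ j, LinM φ i j * B j k = if i = k then 1 else 0 := by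
    intro i k
    have h1 := congrFun (congrFun (Matrix.mul_nonsing_inv (LinM φ) hdet) i) k
    rw [Matrix.mul_apply, Matrix.one_apply] at h1
    exact h1
  -- the linear combination
  have hlin : ∀ (r : Fin n → MvPowerSeries (Fin n) ℂ) (i : Fin n),
      ∑ j, MvPowerSeries.C (MvPowerSeries.coeff (Finsupp.single j 1) (φ i)) *
        (∑ k, MvPowerSeries.C (B j k) * r k) = r i := by
    intro r i
    have h1 : ∑ j, MvPowerSeries.C (MvPowerSeries.coeff (Finsupp.single j 1) (φ i)) *
        (∑ k, MvPowerSeries.C (B j k) * r k) =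
        ∑ k, MvPowerSeries.C (∑ j, LinM φ i j * B j k) * r k := by
      simp only [Finset.mul_sum]
      rw [Finset.sum_comm]
      refine Finset.sum_congr rfl fun k _ => ?_
      rw [map_sum, Finset.sum_mul]
      refine Finset.sum_congr rfl fun j _ => ?_
      rw [map_mul, mul_assoc]
      rfl
    rw [h1, Finset.sum_eq_single i]
    · rw [hAB, if_pos rfl, map_one, one_mul]
    · intro k _ hk
      rw [hAB, if_neg (Ne.symm hk), map_zero, zero_mul]
    · intro h
      exact absurd (Finset.mem_univ _) h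
  induction m with
  | zero =>
    refine ⟨fun i => ∑ k, MvPowerSeries.C (B i k) * MvPowerSeries.X k, fun i => ?_, ?_, ?_⟩
    · rw [map_sum]
      refine Finset.sum_eq_zero fun k _ => ?_
      rw [map_mul, MvPowerSeries.constantCoeff_X, mul_zero]
    · ext i j
      show MvPowerSeries.coeff (Finsupp.single j 1)
        (∑ k, MvPowerSeries.C (B i k) * MvPowerSeries.X k) = B i j
      rw [map_sum, Finset.sum_eq_single j]
      · rw [MvPowerSeries.coeff_C_mul, MvPowerSeries.coeff_X, if_pos rfl, mul_one]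
      · intro k _ hk
        rw [MvPowerSeries.coeff_C_mul, MvPowerSeries.coeff_X, if_neg, mul_zero]
        intro h
        exact hk (Finsupp.single_left_injective one_ne_zero h).symm
      · intro h
        exact absurd (Finset.mem_univ _) h
    · intro i
      have hδ : ∀ i, O 1 (∑ k, MvPowerSeries.C (B i k) * (MvPowerSeries.X k :
          MvPowerSeries (Fin n) ℂ)) := fun i => O.sum _ _ fun k _ =>
        (o_one (MvPowerSeries.constantCoeff_X k)).left _
      have h1 := taylor (le_refl 1) (ψ := fun _ => 0) (fun i => map_zero _) hδ (φ i)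
      rw [hlin] at h1
      have h2 : MvPowerSeries.subst (fun _ : Fin n => (0 : MvPowerSeries (Fin n) ℂ)) (φ i) = 0 :=
        MvPowerSeries.subst_zero_of_constantCoeff_zero (hφ0 i)
      rw [h2, sub_zero] at h1
      simp only [zero_add] at h1
      exact h1
  | succ m ih =>
    obtain ⟨ψ, h1, h2, h3⟩ := ih
    set r : Fin n → MvPowerSeries (Fin n) ℂ := fun i =>
      MvPowerSeries.subst ψ (φ i) - MvPowerSeries.X i with hr
    set δ : Fin n → MvPowerSeries (Fin n) ℂ := fun j =>
      -∑ k, MvPowerSeries.C (B j k) * r k with hδ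
    have hδO : ∀ j, O (m + 2) (δ j) := fun j =>
      (O.sum _ _ fun k _ => (h3 k).left _).neg
    refine ⟨fun i => ψ i + δ i, fun i => ?_, ?_, fun i => ?_⟩
    · rw [map_add, h1, const_of_o (by omega) (hδO i), add_zero]
    · rw [← h2]
      ext i j
      show MvPowerSeries.coeff (Finsupp.single j 1) (ψ i + δ i) =
        MvPowerSeries.coeff (Finsupp.single j 1) (ψ i)
      rw [map_add, hδO i _ (by rw [Finsupp.degree_single]; omega), add_zero]
    · have h4 := taylor (by omega : 1 ≤ m + 2) h1 hδO (φ i)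
      have h5 : ∑ j, MvPowerSeries.C (MvPowerSeries.coeff (Finsupp.single j 1) (φ i)) * δ j =
          -r i := by
        rw [← hlin r i, ← Finset.sum_neg_distrib]
        refine Finset.sum_congr rfl fun j _ => ?_
        simp only [hδ]
        rw [mul_neg]
      rw [h5] at h4
      convert h4 using 1
      simp only [hr]
      ring

/-- **Formal coordinates have inverses up to any order.** -/
theorem exists_inv {φ : Fin n → MvPowerSeries (Fin n) ℂ} (hφ : IsCoord φ)
    (hφ0 : ∀ i, MvPowerSeries.constantCoeff (φ i) = 0) (N : ℕ) :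
    ∃ ψ : Fin n → MvPowerSeries (Fin n) ℂ, (∀ i, MvPowerSeries.constantCoeff (ψ i) = 0) ∧
      (∀ i, MvPowerSeries.truncTotal (N + 1) (MvPowerSeries.subst ψ (φ i)) =
        MvPowerSeries.truncTotal (N + 1) (MvPowerSeries.X i)) ∧
      ∀ i, MvPowerSeries.truncTotal (N + 1) (MvPowerSeries.subst φ (ψ i)) =
        MvPowerSeries.truncTotal (N + 1) (MvPowerSeries.X i) := by
  classical
  have hdet : IsUnit (LinM φ).det := isUnit_iff_ne_zero.2 hφ
  obtain ⟨ψ, h1, h2, h3⟩ := newton hφ hφ0 N
  have hψ : IsCoord ψ := by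
    rw [isCoord_iff, h2]
    exact (Matrix.isUnit_nonsing_inv_det (LinM φ) hdet).ne_zero
  obtain ⟨χ, h4, -, h5⟩ := newton hψ h1 N
  have e1 : ∀ i, MvPowerSeries.truncTotal (N + 1) (MvPowerSeries.subst ψ (φ i)) =
      MvPowerSeries.truncTotal (N + 1) (MvPowerSeries.X i) := fun i =>
    (o_trunc _ _ _).1 ((h3 i).mono (by omega))
  have e2 : ∀ i, MvPowerSeries.truncTotal (N + 1) (MvPowerSeries.subst χ (ψ i)) =
      MvPowerSeries.truncTotal (N + 1) (MvPowerSeries.X i) := fun i =>
    (o_trunc _ _ _).1 ((h5 i).mono (by omega))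
  have sψ := MvPowerSeries.hasSubst_of_constantCoeff_zero h1
  have sχ := MvPowerSeries.hasSubst_of_constantCoeff_zero h4
  have cX : ∀ i : Fin n, MvPowerSeries.constantCoeff
      (MvPowerSeries.X i : MvPowerSeries (Fin n) ℂ) = 0 := fun i =>
    MvPowerSeries.constantCoeff_X i
  -- `χ = φ`
  have e3 : ∀ i, MvPowerSeries.truncTotal (N + 1) (χ i) =
      MvPowerSeries.truncTotal (N + 1) (φ i) := by
    intro i
    have h6 := tt_right (k := N + 1) h4 (e1 i)
    rw [MvPowerSeries.subst_X sχ, MvPowerSeries.subst_comp_subst_apply sψ sχ] at h6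
    rw [← h6]
    have h7 := tt_left (k := N + 1) (φ := fun s => MvPowerSeries.subst χ (ψ s))
      (φ' := fun s => MvPowerSeries.X s)
      (fun s => MvPowerSeries.constantCoeff_subst_eq_zero sχ h4 (h1 s)) cX e2 (φ i)
    rw [h7]
    have h8 : MvPowerSeries.subst (fun s => (MvPowerSeries.X s : MvPowerSeries (Fin n) ℂ))
        (φ i) = φ i := by
      have := MvPowerSeries.subst_self (σ := Fin n) (R := ℂ)
      exact congrFun this (φ i)
    rw [h8]
  refine ⟨ψ, h1, e1, fun i => ?_⟩
  rw [← e2 i]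
  exact (tt_left (k := N + 1) h4 hφ0 e3 (ψ i)).symm

end Pool.Agent.Q300.LM
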