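import Pool.Agent.Q300.LM.Inv

set_option autoImplicit false

/-! The classes of the jets with origin `0` are invariant under formal changes of coordinates and
multiplication by units. -/

namespace Pool.Agent.Q300.LM

open MvPolynomial Pool.Agent.W428.MOT Pool.Agent.W375.MT
open Pool.Agent.Z864.MS (Tm isPF_Tm)

abbrev CC : Type := AlgebraicClosure ℂ

section ev
variable {a b : ℕ}

/-- the value of a formal power series at power series in `t` without constant term -/
noncomputable def ev (γ : Fin a → PowerSeries CC) (g : MvPowerSeries (Fin a) ℂ) :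
    PowerSeries CC := MvPowerSeries.subst γ g

theorem hs {γ : Fin a → PowerSeries CC} (h : ∀ i, PowerSeries.constantCoeff (γ i) = 0) :
    MvPowerSeries.HasSubst γ := MvPowerSeries.hasSubst_of_constantCoeff_zero fun i => h i

theorem ev_coe (γ : Fin a → PowerSeries CC) (g : MvPolynomial (Fin a) ℂ) :
    ev γ (g : MvPowerSeries (Fin a) ℂ) = aeval γ g := MvPowerSeries.subst_coe g

theorem coeff_ev_trunc {γ : Fin a → PowerSeries CC}
    (h : ∀ i, PowerSeries.constantCoeff (γ i) = 0) (g : MvPowerSeries (Fin a) ℂ) {N k : ℕ}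
    (hk : k ≤ N) : PowerSeries.coeff k (ev γ g) =
      PowerSeries.coeff k (aeval γ (MvPowerSeries.truncTotal (N + 1) g)) := by
  have h1 := MvPowerSeries.truncTotal_subst_eq_truncTotal_truncTotal_subst (k := N + 1)
    (f := g) (a := γ) fun i => h i
  have hd : (Finsupp.single () k).degree < N + 1 := by
    rw [Finsupp.degree_single]
    omega
  have h2 := congrArg (MvPolynomial.coeff (Finsupp.single () k)) h1
  rw [MvPowerSeries.coeff_truncTotal _ hd, MvPowerSeries.coeff_truncTotal _ hd,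
    MvPowerSeries.subst_coe] at h2
  exact h2

theorem coeff_ev_congr {γ δ : Fin a → PowerSeries CC}
    (h : ∀ i, PowerSeries.constantCoeff (γ i) = 0)
    (h' : ∀ i, PowerSeries.constantCoeff (δ i) = 0) (g : MvPowerSeries (Fin a) ℂ) {N : ℕ}
    (he : ∀ i, ∀ k ≤ N, PowerSeries.coeff k (γ i) = PowerSeries.coeff k (δ i)) :
    ∀ k ≤ N, PowerSeries.coeff k (ev γ g) = PowerSeries.coeff k (ev δ g) := by
  intro k hk
  rw [coeff_ev_trunc h g hk, coeff_ev_trunc h' g hk]
  exact coeff_aeval_congr _ N γ δ he k hk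

theorem ev_const {γ : Fin a → PowerSeries CC} (h : ∀ i, PowerSeries.constantCoeff (γ i) = 0)
    {g : MvPowerSeries (Fin a) ℂ} (hg : MvPowerSeries.constantCoeff g = 0) :
    PowerSeries.constantCoeff (ev γ g) = 0 :=
  MvPowerSeries.constantCoeff_subst_eq_zero (hs h) (fun i => h i) hg

/-- composition -/
theorem ev_subst {γ : Fin b → PowerSeries CC} (h : ∀ i, PowerSeries.constantCoeff (γ i) = 0)
    {φ : Fin a → MvPowerSeries (Fin b) ℂ} (hφ : ∀ i, MvPowerSeries.constantCoeff (φ i) = 0)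
    (g : MvPowerSeries (Fin a) ℂ) :
    ev γ (MvPowerSeries.subst φ g) = ev (fun i => ev γ (φ i)) g :=
  MvPowerSeries.subst_comp_subst_apply (MvPowerSeries.hasSubst_of_constantCoeff_zero hφ) (hs h) g

theorem ev_mul {γ : Fin a → PowerSeries CC} (h : ∀ i, PowerSeries.constantCoeff (γ i) = 0)
    (g g' : MvPowerSeries (Fin a) ℂ) : ev γ (g * g') = ev γ g * ev γ g' :=
  MvPowerSeries.subst_mul (hs h) g g'

theorem ev_unit {γ : Fin a → PowerSeries CC} (h : ∀ i, PowerSeries.constantCoeff (γ i) = 0)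
    {u : MvPowerSeries (Fin a) ℂ} (hu : IsUnit u) : IsUnit (ev γ u) := by
  have h1 := hu.map (MvPowerSeries.substAlgHom (R := ℂ) (hs h))
  rw [MvPowerSeries.coe_substAlgHom] at h1
  exact h1

theorem ev_X {γ : Fin a → PowerSeries CC} (h : ∀ i, PowerSeries.constantCoeff (γ i) = 0)
    (i : Fin a) : ev γ (MvPowerSeries.X i) = γ i :=
  MvPowerSeries.subst_X (hs h) i

end ev

section tr
variable {a b N : ℕ}

/-- the truncation of a formal map -/
noncomputable def trm (φ : Fin a → MvPowerSeries (Fin b) ℂ) (N : ℕ) :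
    MvPolynomial (Fin a) ℂ →ₐ[ℂ] MvPolynomial (Fin b) ℂ :=
  aeval fun i => MvPowerSeries.truncTotal (N + 1) (φ i)

theorem arc_const (z : Pt ℂ (Fin b × Fin (N + 1))) (hz : ∀ i, z (i, 0) = 0) (i : Fin b) :
    PowerSeries.constantCoeff (arc z i) = 0 := by
  rw [← PowerSeries.coeff_zero_eq_constantCoeff_apply, coeff_arc _ _ _ (Nat.succ_pos N)]
  exact hz i

/-- the coefficients of the image of an arc -/
theorem coeff_img {φ : Fin a → MvPowerSeries (Fin b) ℂ} (z : Pt ℂ (Fin b × Fin (N + 1)))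
    (hz : ∀ i, z (i, 0) = 0) (i : Fin a) (k : ℕ) (hk : k ≤ N) :
    PowerSeries.coeff k (arc (Tm (trm φ N) N z) i) =
      PowerSeries.coeff k (ev (arc z) (φ i)) := by
  rw [coeff_arc _ _ _ (by omega), coeff_ev_trunc (arc_const z hz) (φ i) hk]
  show PowerSeries.coeff k (aeval (arc z) (trm φ N (X i))) = _
  unfold trm
  rw [aeval_X]

theorem img_zero {φ : Fin a → MvPowerSeries (Fin b) ℂ}
    (hφ : ∀ i, MvPowerSeries.constantCoeff (φ i) = 0) (z : Pt ℂ (Fin b × Fin (N + 1)))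
    (hz : ∀ i, z (i, 0) = 0) (i : Fin a) : Tm (trm φ N) N z (i, 0) = 0 := by
  have h1 := coeff_img (φ := φ) z hz i 0 (Nat.zero_le _)
  rw [coeff_arc _ _ _ (Nat.succ_pos N), PowerSeries.coeff_zero_eq_constantCoeff_apply,
    ev_const (arc_const z hz) (hφ i)] at h1
  exact h1

/-- the value of a polynomial at the image of an arc -/
theorem coeff_val {φ : Fin a → MvPowerSeries (Fin b) ℂ}
    (hφ : ∀ i, MvPowerSeries.constantCoeff (φ i) = 0) (z : Pt ℂ (Fin b × Fin (N + 1)))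
    (hz : ∀ i, z (i, 0) = 0) (g : MvPowerSeries (Fin a) ℂ) (k : ℕ) (hk : k ≤ N) :
    PowerSeries.coeff k (ev (arc (Tm (trm φ N) N z)) g) =
      PowerSeries.coeff k (ev (arc z) (MvPowerSeries.subst φ g)) := by
  rw [ev_subst (arc_const z hz) hφ]
  exact coeff_ev_congr (arc_const _ (img_zero hφ z hz))
    (fun i => ev_const (arc_const z hz) (hφ i)) g (fun i k hk => coeff_img z hz i k hk) k hk

theorem img_img {φ : Fin a → MvPowerSeries (Fin b) ℂ} {ψ : Fin b → MvPowerSeries (Fin a) ℂ}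
    (hφ : ∀ i, MvPowerSeries.constantCoeff (φ i) = 0)
    (h : ∀ j, MvPowerSeries.truncTotal (N + 1) (MvPowerSeries.subst φ (ψ j)) =
      MvPowerSeries.truncTotal (N + 1) (MvPowerSeries.X j))
    (z : Pt ℂ (Fin b × Fin (N + 1))) (hz : ∀ i, z (i, 0) = 0) :
    Tm (trm ψ N) N (Tm (trm φ N) N z) = z := by
  funext p
  obtain ⟨j, k⟩ := p
  have h1 := coeff_img (φ := ψ) (Tm (trm φ N) N z) (img_zero hφ z hz) j k (by omega)
  rw [coeff_arc _ _ _ k.2, coeff_val hφ z hz _ _ (by omega),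
    coeff_ev_trunc (arc_const z hz) _ (by omega : (k : ℕ) ≤ N), h,
    ← coeff_ev_trunc (arc_const z hz) _ (by omega : (k : ℕ) ≤ N), ev_X (arc_const z hz),
    coeff_arc _ _ _ k.2] at h1
  exact h1

/-- `F` becomes `u G` in the formal coordinates `φ`, which have inverses up to any order -/
structure FIso (F : MvPolynomial (Fin a) ℂ) (G : MvPolynomial (Fin b) ℂ) : Prop where
  ex : ∃ (φ : Fin a → MvPowerSeries (Fin b) ℂ) (u : MvPowerSeries (Fin b) ℂ),
    (∀ i, MvPowerSeries.constantCoeff (φ i) = 0) ∧ IsUnit u ∧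
    MvPowerSeries.subst φ (F : MvPowerSeries (Fin a) ℂ) = u * (G : MvPowerSeries (Fin b) ℂ) ∧
    ∀ N : ℕ, ∃ ψ : Fin b → MvPowerSeries (Fin a) ℂ,
      (∀ j, MvPowerSeries.constantCoeff (ψ j) = 0) ∧
      (∀ i, MvPowerSeries.truncTotal (N + 1) (MvPowerSeries.subst ψ (φ i)) =
        MvPowerSeries.truncTotal (N + 1) (MvPowerSeries.X i)) ∧
      ∀ i, MvPowerSeries.truncTotal (N + 1) (MvPowerSeries.subst φ (ψ i)) =
        MvPowerSeries.truncTotal (N + 1) (MvPowerSeries.X i)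

/-- **The transport of the classes of jets.** -/
theorem transport {R : Type} [CommRing R] (M : Meas ℂ R) {F : MvPolynomial (Fin a) ℂ}
    {G : MvPolynomial (Fin b) ℂ} (h : FIso F G) (P : PowerSeries CC → Prop)
    (hP1 : ∀ g g' : PowerSeries CC, (∀ k ≤ N, PowerSeries.coeff k g = PowerSeries.coeff k g') →
      P g → P g')
    (hP2 : ∀ g g' : PowerSeries CC, IsUnit g → (P (g * g') ↔ P g'))
    (hcF : Constr {z : Pt ℂ (Fin a × Fin (N + 1)) | (∀ i, z (i, 0) = 0) ∧ P (aeval (arc z) F)})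
    (hcG : Constr {z : Pt ℂ (Fin b × Fin (N + 1)) | (∀ i, z (i, 0) = 0) ∧
      P (aeval (arc z) G)}) :
    M.χ _ {z : Pt ℂ (Fin b × Fin (N + 1)) | (∀ i, z (i, 0) = 0) ∧ P (aeval (arc z) G)} =
      M.χ _ {z : Pt ℂ (Fin a × Fin (N + 1)) | (∀ i, z (i, 0) = 0) ∧ P (aeval (arc z) F)} := by
  obtain ⟨φ, u, hφ, hu, h3, hinv⟩ := h.ex
  obtain ⟨ψ, hψ, h2, h1⟩ := hinv N
  have key : ∀ z : Pt ℂ (Fin b × Fin (N + 1)), (∀ i, z (i, 0) = 0) →
      (P (aeval (arc (Tm (trm φ N) N z)) F) ↔ P (aeval (arc z) G)) := by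
    intro z g1
    have e1 : ∀ k ≤ N, PowerSeries.coeff k (aeval (arc (Tm (trm φ N) N z)) F) =
        PowerSeries.coeff k (ev (arc z) (MvPowerSeries.subst φ (F : MvPowerSeries (Fin a) ℂ))) := by
      intro k hk
      rw [← ev_coe, coeff_val hφ z g1 _ k hk]
    have e2 : P (ev (arc z) (MvPowerSeries.subst φ (F : MvPowerSeries (Fin a) ℂ))) ↔
        P (aeval (arc z) G) := by
      rw [h3, ev_mul (arc_const z g1), ev_coe, hP2 _ _ (ev_unit (arc_const z g1) hu)]
    rw [← e2]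
    exact ⟨hP1 _ _ e1, hP1 _ _ fun k hk => (e1 k hk).symm⟩
  refine M.iso _ _ hcG hcF (Tm (trm φ N) N) (Tm (trm ψ N) N)
    (regularOn_poly (fun p => isPF_Tm _ p) _) (regularOn_poly (fun p => isPF_Tm _ p) _)
    ?_ ?_ (fun z hz => img_img hφ h1 z hz.1) (fun z hz => img_img hψ h2 z hz.1)
  · rintro z ⟨g1, g2⟩
    exact ⟨img_zero hφ z g1, (key z g1).2 g2⟩
  · rintro z ⟨g1, g2⟩
    have g3 := img_zero hψ z g1
    refine ⟨g3, ?_⟩
    rw [← key _ g3, img_img hψ h2 z g1]
    exact g2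

end tr

end Pool.Agent.Q300.LM
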