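import Pool.Agent.Q300.LM.Fst
import Pool.Agent.Q300.LM.Tr

set_option autoImplicit false

/-! Local motivic zeta functions of stably sparse germs. -/

namespace Pool.Agent.Q300.LM

open MvPolynomial Pool.Agent.H628R4.TP Pool.Agent.W428.MOT Pool.Agent.W375.MT
open Pool.Agent.W375.MG (JetG zetaG Good good_units ratRing_mono)
open Pool.Agent.Y229.MS (addyz itr Witr Wyz constr_Witr constr_Wyz CE ce_good fst' zeta_of_fst
  descend' Tl exyz cyz spa_addyz ind_exyz cyz_ne shn t1)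
open Pool.Agent.Y229.PS (Becomes becomes_local formal_of_local stabP)
open Pool.Agent.Y229.RE (stab)
open Pool.Agent.Y229.GL (IsCoord)
open Pool.Agent.W425.ND (spa)
open Pool.Agent.W425.SM (Ind)
open Pool.Agent.W426.SM (gord IsRay)
open Pool.Agent.Q59.TR

section jets
variable {a b : ℕ}

theorem jet_iff (N : ℕ) (g : PowerSeries CC) :
    ((∀ j < N, PowerSeries.coeff j g = 0) ∧ PowerSeries.coeff N g ≠ 0) ↔
      PowerSeries.X ^ N ∣ g ∧ ¬ PowerSeries.X ^ (N + 1) ∣ g := by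
  rw [PowerSeries.X_pow_dvd_iff, PowerSeries.X_pow_dvd_iff]
  constructor
  · rintro ⟨h1, h2⟩
    exact ⟨h1, fun h => h2 (h N (Nat.lt_succ_self N))⟩
  · rintro ⟨h1, h2⟩
    refine ⟨h1, fun h => h2 fun j hj => ?_⟩
    rcases Nat.lt_succ_iff_lt_or_eq.1 hj with h3 | rfl
    · exact h1 j h3
    · exact h

theorem jetG_set (F : MvPolynomial (Fin a) ℂ) (N : ℕ) :
    JetG F ({0} : Set (Pt ℂ (Fin a))) {x | x ≠ 0} N =
      {z : Pt ℂ (Fin a × Fin (N + 1)) | (∀ i, z (i, 0) = 0) ∧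
        ((∀ j < N, PowerSeries.coeff j (aeval (arc z) F) = 0) ∧
          PowerSeries.coeff N (aeval (arc z) F) ≠ 0)} := by
  ext z
  simp only [JetG, Set.mem_ofPred_eq, Set.mem_singleton_iff, funext_iff, Pi.zero_apply]

theorem tl_set (F : MvPolynomial (Fin a) ℂ) (i N : ℕ) :
    Tl F ({0} : Set (Pt ℂ (Fin a))) i N =
      {z : Pt ℂ (Fin a × Fin (N + 1)) | (∀ i, z (i, 0) = 0) ∧
        (∀ j < i, PowerSeries.coeff j (aeval (arc z) F) = 0)} := by
  ext z
  simp only [Tl, Set.mem_ofPred_eq, Set.mem_singleton_iff, funext_iff, Pi.zero_apply]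

theorem jet_eq {R : Type} [CommRing R] (M : Meas ℂ R) {F : MvPolynomial (Fin a) ℂ}
    {G : MvPolynomial (Fin b) ℂ} (h : FIso F G) (N : ℕ) :
    M.χ _ (JetG G ({0} : Set (Pt ℂ (Fin b))) {x | x ≠ 0} N) =
      M.χ _ (JetG F ({0} : Set (Pt ℂ (Fin a))) {x | x ≠ 0} N) := by
  have c1 := Pool.Agent.Z864.MS.constr_JetE F (W := {0}) constr_zero (ce_good good_units) N
  have c2 := Pool.Agent.Z864.MS.constr_JetE G (W := {0}) constr_zero (ce_good good_units) N
  rw [jetG_set] at c1 c2 ⊢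
  rw [jetG_set]
  refine transport M h (fun g => (∀ j < N, PowerSeries.coeff j g = 0) ∧
    PowerSeries.coeff N g ≠ 0) ?_ ?_ c1 c2
  · rintro g g' hg ⟨h1, h2⟩
    refine ⟨fun j hj => ?_, ?_⟩
    · rw [← hg j hj.le]
      exact h1 j hj
    · rw [← hg N le_rfl]
      exact h2
  · intro g g' hg
    show ((∀ j < N, PowerSeries.coeff j (g * g') = 0) ∧ PowerSeries.coeff N (g * g') ≠ 0) ↔
      ((∀ j < N, PowerSeries.coeff j g' = 0) ∧ PowerSeries.coeff N g' ≠ 0)
    rw [jet_iff, jet_iff, hg.dvd_mul_left, hg.dvd_mul_left]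

theorem tl_eq {R : Type} [CommRing R] (M : Meas ℂ R) {F : MvPolynomial (Fin a) ℂ}
    {G : MvPolynomial (Fin b) ℂ} (h : FIso F G) (i N : ℕ) (hi : i ≤ N + 1) :
    M.χ _ (Tl G ({0} : Set (Pt ℂ (Fin b))) i N) =
      M.χ _ (Tl F ({0} : Set (Pt ℂ (Fin a))) i N) := by
  have c1 := Pool.Agent.Y812.MS.constr_Tl F (W := {0}) constr_zero i N
  have c2 := Pool.Agent.Y812.MS.constr_Tl G (W := {0}) constr_zero i N
  rw [tl_set] at c1 c2 ⊢
  rw [tl_set]
  refine transport M h (fun g => ∀ j < i, PowerSeries.coeff j g = 0) ?_ ?_ c1 c2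
  · intro g g' hg h1 j hj
    rw [← hg j (by omega)]
    exact h1 j hj
  · intro g g' hg
    show (∀ j < i, PowerSeries.coeff j (g * g') = 0) ↔ (∀ j < i, PowerSeries.coeff j g' = 0)
    rw [← PowerSeries.X_pow_dvd_iff, ← PowerSeries.X_pow_dvd_iff, hg.dvd_mul_left]

/-- formally isomorphic polynomials have the same zeta functions at the origin -/
theorem zeta_eq (hab : a = b) {F : MvPolynomial (Fin a) ℂ} {G : MvPolynomial (Fin b) ℂ}
    (h : FIso F G) : zetaG G ({0} : Set (Pt ℂ (Fin b))) {x | x ≠ 0} =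
      zetaG F ({0} : Set (Pt ℂ (Fin a))) {x | x ≠ 0} := by
  obtain ⟨M₀, hM₀⟩ := Pool.Agent.W417.MT.K0.main ℂ
  ext N
  have h5 : b * N = a * N := by rw [hab]
  rw [zetaG, zetaG, PowerSeries.coeff_mk, PowerSeries.coeff_mk, ← hM₀, ← hM₀,
    jet_eq M₀ h N, h5]

/-- the same after adding `y z` -/
theorem zeta_addyz (hab : a = b) {F : MvPolynomial (Fin a) ℂ} {G : MvPolynomial (Fin b) ℂ}
    (h : FIso F G) : zetaG (addyz G) (Wyz ({0} : Set (Pt ℂ (Fin b)))) {x | x ≠ 0} =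
      zetaG (addyz F) (Wyz ({0} : Set (Pt ℂ (Fin a)))) {x | x ≠ 0} := by
  obtain ⟨M₀, hM₀⟩ := Pool.Agent.W417.MT.K0.main ℂ
  ext N
  have h1 : M₀.χ _ (JetG (addyz G) (Wyz ({0} : Set (Pt ℂ (Fin b)))) {x | x ≠ 0} N) =
      M₀.χ _ (JetG (addyz F) (Wyz ({0} : Set (Pt ℂ (Fin a)))) {x | x ≠ 0} N) := by
    rw [t1 ℂ _ M₀ G {0} {x | x ≠ 0} constr_zero (ce_good good_units) N,
      t1 ℂ _ M₀ F {0} {x | x ≠ 0} constr_zero (ce_good good_units) N, jet_eq M₀ h N,
      Finset.sum_congr rfl fun i hi => tl_eq M₀ h i N (Finset.mem_range.1 hi).le]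
  have h5 : (b + 2) * N = (a + 2) * N := by rw [hab]
  rw [zetaG, zetaG, PowerSeries.coeff_mk, PowerSeries.coeff_mk, ← hM₀, ← hM₀, h1, h5]

end jets

/-- renaming of the variables -/
theorem fiso_rename {a b : ℕ} (e : Fin a ≃ Fin b) (F : MvPolynomial (Fin a) ℂ) :
    FIso F (rename e F) := by
  refine ⟨⟨fun i => MvPowerSeries.X (e i), 1,
    fun i => MvPowerSeries.constantCoeff_X _, isUnit_one, ?_, fun N =>
    ⟨fun j => MvPowerSeries.X (e.symm j), fun j => MvPowerSeries.constantCoeff_X _,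
    fun j => ?_, fun i => ?_⟩⟩⟩
  · rw [one_mul, MvPowerSeries.subst_coe]
    have h2 : (aeval (fun i => (MvPowerSeries.X (e i) : MvPowerSeries (Fin b) ℂ)) :
        MvPolynomial (Fin a) ℂ →ₐ[ℂ] MvPowerSeries (Fin b) ℂ) =
        (MvPolynomial.coeToMvPowerSeries.algHom (R := ℂ) (σ := Fin b) ℂ).comp (rename e) := by
      apply MvPolynomial.algHom_ext
      intro i
      rw [aeval_X, AlgHom.comp_apply, rename_X]
      simp
    rw [h2]
    simp
  · rw [MvPowerSeries.subst_X (MvPowerSeries.hasSubst_of_constantCoeff_zero fun i =>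
      MvPowerSeries.constantCoeff_X _), Equiv.symm_apply_apply]
  · rw [MvPowerSeries.subst_X (MvPowerSeries.hasSubst_of_constantCoeff_zero fun i =>
      MvPowerSeries.constantCoeff_X _), Equiv.apply_symm_apply]

/-- the two forms of `f + ∑ y_i z_i` -/
theorem fiso_itr {n : ℕ} (f : MvPolynomial (Fin n) ℂ) (κ : ℕ) :
    FIso (itr f κ) (stab f κ) := by
  obtain ⟨g, hg, hr⟩ := Pool.Agent.Y405.MS.itr_aux f κ
  have hcard : Fintype.card (Fin (n + 2 * κ)) = Fintype.card (Fin n ⊕ (Fin κ ⊕ Fin κ)) := by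
    simp only [Fintype.card_fin, Fintype.card_sum]
    ring
  have hb : Function.Bijective g := (Fintype.bijective_iff_injective_and_card g).2 ⟨hg, hcard⟩
  set s : Fin n ⊕ (Fin κ ⊕ Fin κ) ≃ Fin (n + (κ + κ)) :=
    (Equiv.sumCongr (Equiv.refl _) finSumFinEquiv).trans finSumFinEquiv with hs
  set e : Fin (n + 2 * κ) ≃ Fin (n + (κ + κ)) := (Equiv.ofBijective g hb).trans s with he
  have h1 : rename e (itr f κ) = stab f κ := by
    have h2 : (e : Fin (n + 2 * κ) → Fin (n + (κ + κ))) = s ∘ g := rfl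
    rw [h2, ← rename_rename, hr, map_add, rename_rename, map_sum]
    unfold stab
    congr 1
    refine Finset.sum_congr rfl fun i _ => ?_
    rw [map_mul, rename_X, rename_X]
    rfl
  rw [← h1]
  exact fiso_rename e _

theorem stabP_coe {n : ℕ} (f : MvPolynomial (Fin n) ℂ) (k : ℕ) :
    stabP (f : MvPowerSeries (Fin n) ℂ) k = (stab f k : MvPowerSeries _ ℂ) := by
  unfold stabP stab
  rw [MvPolynomial.coe_add, MvPowerSeries.rename_coe]
  congr 1
  rw [← MvPolynomial.coeToMvPowerSeries.ringHom_apply, map_sum]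
  refine Finset.sum_congr rfl fun i _ => ?_
  rw [map_mul, MvPolynomial.coeToMvPowerSeries.ringHom_apply,
    MvPolynomial.coeToMvPowerSeries.ringHom_apply, MvPolynomial.coe_X, MvPolynomial.coe_X]

theorem becomes_fiso {n κ : ℕ} {f : MvPolynomial (Fin n) ℂ}
    {G : MvPolynomial (Fin (n + (κ + κ))) ℂ}
    (h : Becomes (f : MvPowerSeries (Fin n) ℂ) κ G) : FIso (stab f κ) G := by
  obtain ⟨φ, u, h0, h1, h5, h6⟩ := h
  rw [stabP_coe] at h6
  exact ⟨⟨φ, u, h1, h5, h6, fun N => exists_inv h0 h1 N⟩⟩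

theorem spa_deg1 {n r : ℕ} (hr : 1 ≤ r) (v : Fin r → Fin n → ℕ) (hv : Ind v)
    (hv0 : ∀ j, v j ≠ 0) (c : Fin r → ℂ) (hc : ∀ j, c j ≠ 0) : (spa v c).totalDegree ≠ 0 := by
  classical
  have hinj : Function.Injective v := by
    intro j j' h
    refine hv.injective ?_
    rw [h]
  set j : Fin r := ⟨0, by omega⟩
  intro h0
  have hco : coeff (Finsupp.equivFunOnFinite.symm (v j)) (spa v c) = c j := by
    unfold spa
    rw [coeff_sum]
    have h1 : ∀ j', coeff (Finsupp.equivFunOnFinite.symm (v j)) (C (c j') * ∏ i, X i ^ v j' i) =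
        if j' = j then c j' else 0 := by
      intro j'
      have h2 : (C (c j') * ∏ i, X i ^ v j' i : MvPolynomial (Fin n) ℂ) =
          monomial (Finsupp.equivFunOnFinite.symm (v j')) (c j') := by
        rw [monomial_eq, Finsupp.prod_fintype _ _ fun i => pow_zero _]
        rfl
      rw [h2, coeff_monomial]
      by_cases h3 : j' = j
      · rw [if_pos h3, if_pos (by rw [h3])]
      · rw [if_neg h3, if_neg fun h4 => h3 (hinj (Finsupp.equivFunOnFinite.symm.injective h4))]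
    rw [Finset.sum_congr rfl fun j' _ => h1 j', Finset.sum_ite_eq' _ j,
      if_pos (Finset.mem_univ _)]
  have hmem : Finsupp.equivFunOnFinite.symm (v j) ∈ (spa v c).support := by
    rw [mem_support_iff, hco]
    exact hc j
  have h1 := le_totalDegree hmem
  rw [h0, Nat.le_zero, Finsupp.sum_fintype _ _ fun _ => rfl] at h1
  apply hv0 j
  funext i
  exact Finset.sum_eq_zero_iff.1 h1 i (Finset.mem_univ i)

theorem spa_const {n r : ℕ} (v : Fin r → Fin n → ℕ) (hv0 : ∀ j, v j ≠ 0) (c : Fin r → ℂ) :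
    constantCoeff (spa v c) = 0 := by
  unfold spa
  rw [map_sum]
  refine Finset.sum_eq_zero fun j _ => ?_
  obtain ⟨i, hi⟩ := Function.ne_iff.1 (hv0 j)
  rw [map_mul, map_prod, Finset.prod_eq_zero (Finset.mem_univ i), mul_zero]
  rw [map_pow, constantCoeff_X, zero_pow hi]

/-- **The main theorem.** -/
theorem main {n κ r : ℕ} (hr : 1 ≤ r) (f : MvPolynomial (Fin n) ℂ) (hf : f.totalDegree ≠ 0)
    (hf0 : constantCoeff f = 0) (v : Fin r → Fin (n + (κ + κ)) → ℕ) (hv : Ind v)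
    (hv0 : ∀ j, v j ≠ 0) (c : Fin r → ℂ) (hc : ∀ j, c j ≠ 0) 
    (hB : Becomes (f : MvPowerSeries (Fin n) ℂ) κ (spa v c)) :
    ∃ S : Finset (ℤ × ℤ),
      (∀ p ∈ S, 0 < p.2 ∧ (p = (-1, 1) ∨ (∃ a : Fin (n + (κ + κ)) → ℕ, IsRay v a ∧
          0 < gord v a ∧ p = (-((∑ i, a i : ℕ) : ℤ) + κ * (gord v a : ℤ), (gord v a : ℤ))) ∨
          ∃ a : Fin (n + (κ + κ) + 2) → ℕ, IsRay (exyz v) a ∧
          0 < gord (exyz v) a ∧ p = (-((∑ i, a i : ℕ) : ℤ) + ((κ + 1 : ℕ) : ℤ) *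
            (gord (exyz v) a : ℤ), (gord (exyz v) a : ℤ))) ∧
        ∀ b : Polynomial ℂ, IsLocalBFunction f b → b.eval ((p.1 : ℂ) / p.2) = 0) ∧
      zetaG f {0} {a | a ≠ 0} ∈ ratRing ℂ S := by
  classical
  have hfc : constantCoeff f = 0 := hf0
  have hGd : (spa v c).totalDegree ≠ 0 := spa_deg1 hr v hv hv0 c hc
  have hG0 : constantCoeff (spa v c) = 0 := spa_const v hv0 c
  have hcoe := coe_ne (ne_zero_of_deg hf)
  have hcc : MvPowerSeries.constantCoeff (f : MvPowerSeries (Fin n) ℂ) = 0 := by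
    rw [Pool.Agent.Y229.PS.const_coe, hf0]
  -- the local functional equations
  have hb1 : ∀ c' : Polynomial ℂ, IsLocalBFunction f ((Polynomial.X + 1) * c') →
      IsLocalBFunction (spa v c) ((Polynomial.X + 1) *
        c'.comp (Polynomial.X + Polynomial.C (κ : ℂ))) := fun c' h =>
    (becomes_local hcoe hcc (formal_of_local h) hB).2 c' rfl
  have hb2 : ∀ c' : Polynomial ℂ, IsLocalBFunction f ((Polynomial.X + 1) * c') →
      IsLocalBFunction (spa (exyz v) (cyz c)) ((Polynomial.X + 1) *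
        (c'.comp (Polynomial.X + Polynomial.C (κ : ℂ))).comp
          (Polynomial.X + Polynomial.C ((1 : ℕ) : ℂ))) := by
    intro c' h
    rw [spa_addyz]
    exact bL_addyz hGd hG0 (hb1 c' h)
  obtain ⟨S1, hS1, hz1⟩ := ind_fst_loc hr v hv hv0 c hc
    (fun P => ∃ c' : Polynomial ℂ, IsLocalBFunction f ((Polynomial.X + 1) * c') ∧
      P = c'.comp (Polynomial.X + Polynomial.C (κ : ℂ)))
    (by
      rintro P ⟨c', h, rfl⟩
      exact hb1 c' h)
  have hex0 : ∀ j, exyz v j ≠ 0 := by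
    intro j
    refine Fin.cases ?_ (fun j => ?_) j
    · intro h
      have h1 := congrFun h (Fin.natAdd _ 0)
      simp [exyz] at h1
    · intro h
      apply hv0 j
      funext i
      have h1 := congrFun h (Fin.castAdd 2 i)
      simp only [exyz, Fin.cons_succ, Fin.append_left, Pi.zero_apply] at h1
      exact h1
  obtain ⟨S2, hS2, hz2⟩ := ind_fst_loc (by omega : 1 ≤ r + 1) (exyz v) (ind_exyz hv) hex0 (cyz c)
    (cyz_ne hc)
    (fun P => ∃ c' : Polynomial ℂ, IsLocalBFunction f ((Polynomial.X + 1) * c') ∧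
      P = (c'.comp (Polynomial.X + Polynomial.C (κ : ℂ))).comp
          (Polynomial.X + Polynomial.C ((1 : ℕ) : ℂ)))
    (by
      rintro P ⟨c', h, rfl⟩
      exact hb2 c' h)
  set S : Finset (ℤ × ℤ) := insert (-1, 1) (S1.image (fun q => (q.1 + κ * q.2, q.2)) ∪
    S2.image (fun q => (q.1 + ((κ + 1 : ℕ) : ℤ) * q.2, q.2))) with hS
  refine ⟨S, fun p hp => ?_, ?_⟩
  · rcases Finset.mem_insert.1 hp with rfl | hp
    · refine ⟨by norm_num, Or.inl rfl, fun b hb => ?_⟩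
      obtain ⟨c', rfl⟩ := factorL hf hf0 hb
      simp
    · rcases Finset.mem_union.1 hp with hp | hp
      · obtain ⟨q, hq, rfl⟩ := Finset.mem_image.1 hp
        obtain ⟨-, hq2, ⟨a, ha, hg, rfl⟩, hq4⟩ := hS1 q hq
        refine ⟨hq2, Or.inr (Or.inl ⟨a, ha, hg, rfl⟩), fun b hb => ?_⟩
        obtain ⟨c', hc'⟩ := factorL hf hf0 hb
        have h6 := hq4 _ ⟨c', hc' ▸ hb, rfl⟩
        rw [Polynomial.eval_comp] at h6
        rw [hc', Polynomial.eval_mul]
        have h7 : ((gord v a : ℤ) : ℂ) ≠ 0 := by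
          exact_mod_cast (Nat.pos_iff_ne_zero.1 hg)
        have h8 : (((-((∑ i, a i : ℕ) : ℤ) + κ * (gord v a : ℤ) : ℤ) : ℂ) /
            ((gord v a : ℤ) : ℂ)) = Polynomial.eval (((-((∑ i, a i : ℕ) : ℤ) : ℤ) : ℂ) /
            ((gord v a : ℤ) : ℂ)) (Polynomial.X + Polynomial.C (κ : ℂ)) := by
          rw [Polynomial.eval_add, Polynomial.eval_X, Polynomial.eval_C]
          push_cast at h7 ⊢
          rw [add_div, mul_div_assoc, div_self h7, mul_one]
        simp only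
        rw [h8, h6, mul_zero]
      · obtain ⟨q, hq, rfl⟩ := Finset.mem_image.1 hp
        obtain ⟨-, hq2, ⟨a, ha, hg, rfl⟩, hq4⟩ := hS2 q hq
        refine ⟨hq2, Or.inr (Or.inr ⟨a, ha, hg, rfl⟩), fun b hb => ?_⟩
        obtain ⟨c', hc'⟩ := factorL hf hf0 hb
        have h6 := hq4 _ ⟨c', hc' ▸ hb, rfl⟩
        rw [Polynomial.eval_comp, Polynomial.eval_comp] at h6
        rw [hc', Polynomial.eval_mul]
        have h7 : ((gord (exyz v) a : ℤ) : ℂ) ≠ 0 := by
          exact_mod_cast (Nat.pos_iff_ne_zero.1 hg)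
        have h8 : (((-((∑ i, a i : ℕ) : ℤ) + ((κ + 1 : ℕ) : ℤ) * (gord (exyz v) a : ℤ) : ℤ) : ℂ) /
            ((gord (exyz v) a : ℤ) : ℂ)) = Polynomial.eval (Polynomial.eval
              (((-((∑ i, a i : ℕ) : ℤ) : ℤ) : ℂ) / ((gord (exyz v) a : ℤ) : ℂ))
              (Polynomial.X + Polynomial.C ((1 : ℕ) : ℂ)))
              (Polynomial.X + Polynomial.C (κ : ℂ)) := by
          rw [Polynomial.eval_add, Polynomial.eval_X, Polynomial.eval_C, Polynomial.eval_add,
            Polynomial.eval_X, Polynomial.eval_C]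
          push_cast at h7 ⊢
          rw [add_div, mul_div_assoc, div_self h7, mul_one]
          ring
        simp only
        rw [h8, h6, mul_zero]
  · -- the zeta functions
    have hE : CE ({a | a ≠ 0} : Set (AlgebraicClosure ℂ)) := fun F hF => ce_good good_units F hF
    have hI := fiso_itr f κ
    have hJ := becomes_fiso hB
    have hcard : n + 2 * κ = n + (κ + κ) := by ring
    -- at level κ
    have z1 := hz1 _ (good_units (K := ℂ))
    rw [zeta_eq rfl hJ, zeta_eq hcard hI] at z1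
    obtain ⟨Z1, hZ1, e1⟩ := loc_split f hE κ
    have w1 : fst' ℂ * zetaG (itr f κ) (Witr {0} κ) {a | a ≠ 0} ∈ ratRing ℂ S1 := by
      rw [e1, mul_add]
      exact (ratRing ℂ _).add_mem z1 (ratRing_mono (Set.empty_subset _) hZ1)
    -- at level κ + 1
    have z2 := hz2 _ (good_units (K := ℂ))
    rw [spa_addyz] at z2
    obtain ⟨Z2, hZ2, e2⟩ := loc_split (spa v c) hE 1
    obtain ⟨Z3, hZ3, e3⟩ := loc_split (itr f κ) hE 1
    obtain ⟨Z4, hZ4, e4⟩ := loc_split f hE (κ + 1)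
    have e5 : zetaG (addyz (spa v c)) (Wyz {0}) {a | a ≠ 0} =
        zetaG (addyz (itr f κ)) (Wyz {0}) {a | a ≠ 0} := by
      rw [zeta_addyz rfl hJ, zeta_addyz hcard hI]
    have w2 : fst' ℂ * zetaG (addyz (itr f κ)) (Wyz (Witr {0} κ)) {a | a ≠ 0} ∈
        ratRing ℂ S2 := by
      have e6 : zetaG (addyz (itr f κ)) (Wyz (Witr {0} κ)) {a | a ≠ 0} =
          zetaG (addyz (spa v c)) {0} {a | a ≠ 0} + Z2 - Z3 + Z4 := by
        have e2' : zetaG (addyz (spa v c)) (Wyz {0}) {a | a ≠ 0} =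
          zetaG (addyz (spa v c)) {0} {a | a ≠ 0} + Z2 := e2
        have e3' : zetaG (addyz (itr f κ)) (Wyz {0}) {a | a ≠ 0} =
          zetaG (addyz (itr f κ)) {0} {a | a ≠ 0} + Z3 := e3
        have e4' : zetaG (addyz (itr f κ)) (Wyz (Witr {0} κ)) {a | a ≠ 0} =
          zetaG (addyz (itr f κ)) {0} {a | a ≠ 0} + Z4 := e4
        rw [e4', ← e2', e5, e3']
        ring
      rw [e6, mul_add, mul_sub, mul_add]
      exact (ratRing ℂ _).add_mem ((ratRing ℂ _).sub_mem ((ratRing ℂ _).add_mem z2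
        (ratRing_mono (Set.empty_subset _) hZ2)) (ratRing_mono (Set.empty_subset _) hZ3))
        (ratRing_mono (Set.empty_subset _) hZ4)
    have z3 := descend' f (W := {0}) constr_zero hE κ S1 S2 (fun p hp => (hS1 p hp).2.1)
      (fun p hp => (hS2 p hp).2.1) w1 w2
    refine ratRing_mono ?_ (zeta_of_fst f {0} {a | a ≠ 0} _ z3)
    rintro p (rfl | ⟨q, hq, rfl⟩ | ⟨q, hq, rfl⟩)
    · exact Finset.mem_coe.2 (Finset.mem_insert_self _ _)
    · exact Finset.mem_coe.2 (Finset.mem_insert_of_mem (Finset.mem_union_left _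
        (Finset.mem_image_of_mem (fun q : ℤ × ℤ => (q.1 + (κ : ℤ) * q.2, q.2)) hq)))
    · exact Finset.mem_coe.2 (Finset.mem_insert_of_mem (Finset.mem_union_right _
        (Finset.mem_image_of_mem (fun q : ℤ × ℤ => (q.1 + ((κ + 1 : ℕ) : ℤ) * q.2, q.2)) hq)))

end Pool.Agent.Q300.LM
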