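import Pool.Agent.Q300.LM.FDiff
import Pool.Agent.TH192.MU.TDefs
import Pool.Agent.W63.MTFin

/-!
# Poles of the topological zeta function from the denominators of the motivic one

If a motivic zeta function is in `𝓜[T, 1 / (1 - 𝕃 ^ a T ^ b)]_{(a, b) ∈ S}` and has a topological zeta function
`Z` (`IsTopZeta`), then the poles of `Z` are among the numbers `a / b`, `(a, b) ∈ S`.
-/

set_option autoImplicit false
set_option linter.unusedSectionVars false

namespace Pool.Agent.Q300.LM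

open Pool.Agent.W428.MOT Pool.Agent.TH192.MU
open Finset (range)

section top

/-- the product of the `1 - u ^ a X ^ b` -/
noncomputable def dn {R : Type} [CommRing R] (u : Rˣ) (l : List (ℤ × ℤ)) : Polynomial R :=
  (l.map fun q => 1 - Polynomial.C ((u ^ q.1 : Rˣ) : R) * Polynomial.X ^ q.2.toNat).prod

theorem dn_append {R : Type} [CommRing R] (u : Rˣ) (l l' : List (ℤ × ℤ)) :
    dn u (l ++ l') = dn u l * dn u l' := by
  unfold dn
  rw [List.map_append, List.prod_append]

theorem exists_poly {S : Set (ℤ × ℤ)} (hS : ∀ q ∈ S, 0 < q.2) {Z : PowerSeries (MK ℂ)}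
    (hZ : Z ∈ ratRing ℂ S) : ∃ (l : List (ℤ × ℤ)) (P : Polynomial (MK ℂ)), (∀ q ∈ l, q ∈ S) ∧
      (dn (Lu ℂ) l : PowerSeries (MK ℂ)) * Z = P := by
  unfold ratRing at hZ
  induction hZ using Algebra.adjoin_induction with
  | mem x hx =>
    rcases hx with rfl | ⟨q, hq, rfl⟩
    · refine ⟨[], Polynomial.X, fun q hq => absurd hq List.not_mem_nil, ?_⟩
      simp [dn]
    · refine ⟨[q], 1, fun p hp => ?_, ?_⟩
      · rw [List.mem_singleton] at hp
        rwa [hp]
      · simp only [dn, List.map_cons, List.map_nil, List.prod_cons, List.prod_nil, mul_one]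
        rw [Polynomial.coe_one, ← Pool.Agent.W63.MTFin.geo_mul q.1 q.2 (hS q hq)]
        simp
  | algebraMap r =>
    refine ⟨[], Polynomial.C r, fun q hq => absurd hq List.not_mem_nil, ?_⟩
    simp only [dn, List.map_nil, List.prod_nil, Polynomial.coe_one, one_mul, Polynomial.coe_C]
    rfl
  | add x y hx hy ihx ihy =>
    obtain ⟨l, P, h1, h2⟩ := ihx
    obtain ⟨l', P', h1', h2'⟩ := ihy
    refine ⟨l ++ l', P * dn (Lu ℂ) l' + P' * dn (Lu ℂ) l, fun q hq => ?_, ?_⟩
    · rcases List.mem_append.1 hq with h | h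
      · exact h1 q h
      · exact h1' q h
    · rw [dn_append, Polynomial.coe_mul, Polynomial.coe_add, Polynomial.coe_mul,
        Polynomial.coe_mul, ← h2, ← h2']
      ring
  | mul x y hx hy ihx ihy =>
    obtain ⟨l, P, h1, h2⟩ := ihx
    obtain ⟨l', P', h1', h2'⟩ := ihy
    refine ⟨l ++ l', P * P', fun q hq => ?_, ?_⟩
    · rcases List.mem_append.1 hq with h | h
      · exact h1 q h
      · exact h1' q h
    · rw [dn_append, Polynomial.coe_mul, Polynomial.coe_mul, ← h2, ← h2']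
      ring

variable {R : Type} [CommRing R] [IsDomain R] {E : MK ℂ →+* R} {ε : R →+* ℂ}

theorem dn_map (l : List (ℤ × ℤ)) :
    (dn (Lu ℂ) l).map E = dn (Units.map (E : MK ℂ →* R) (Lu ℂ)) l := by
  induction l with
  | nil => simp [dn]
  | cons q l ih =>
    have h : dn (Lu ℂ) (q :: l) = (1 - Polynomial.C (((Lu ℂ) ^ q.1 : (MK ℂ)ˣ) : MK ℂ) *
        Polynomial.X ^ q.2.toNat) * dn (Lu ℂ) l := by
      simp [dn]
    have h' : dn (Units.map (E : MK ℂ →* R) (Lu ℂ)) (q :: l) =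
        (1 - Polynomial.C (((Units.map (E : MK ℂ →* R) (Lu ℂ)) ^ q.1 : Rˣ) : R) *
        Polynomial.X ^ q.2.toNat) * dn (Units.map (E : MK ℂ →* R) (Lu ℂ)) l := by
      simp [dn]
    rw [h, h', Polynomial.map_mul, ih, Polynomial.map_sub, Polynomial.map_one,
      Polynomial.map_mul, Polynomial.map_C, Polynomial.map_pow, Polynomial.map_X]
    have h3 : E (((Lu ℂ) ^ q.1 : (MK ℂ)ˣ) : MK ℂ) =
        (((Units.map (E : MK ℂ →* R) (Lu ℂ)) ^ q.1 : Rˣ) : R) := by
      rw [← map_zpow]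
      rfl
    rw [h3]

/-- the value of the denominator -/
theorem dn_eval (u : Rˣ) (h1 : ε (u : R) = 1) (l : List (ℤ × ℤ)) (hl : ∀ q ∈ l, 0 < q.2) (s : ℕ)
    (hs : ∀ q ∈ l, 0 < q.2 * (s : ℤ) - q.1) :
    ∃ G : R, (dn u l).eval (((u⁻¹ : Rˣ) : R) ^ s) = (1 - ((u⁻¹ : Rˣ) : R)) ^ l.length * G ∧
      ε G = (l.map fun q => (q.2 : ℂ) * s - q.1).prod := by
  have hv1 : ε ((u⁻¹ : Rˣ) : R) = 1 := by
    have h2 : ε (u : R) * ε ((u⁻¹ : Rˣ) : R) = 1 := by
      rw [← map_mul, Units.mul_inv, map_one]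
    rwa [h1, one_mul] at h2
  induction l with
  | nil => exact ⟨1, by simp [dn], by simp⟩
  | cons q l ih =>
    obtain ⟨G, hG, hG'⟩ := ih (fun p hp => hl p (List.mem_cons_of_mem _ hp))
      (fun p hp => hs p (List.mem_cons_of_mem _ hp))
    have hq := hs q List.mem_cons_self
    have hq2 := hl q List.mem_cons_self
    obtain ⟨k, hk⟩ : ∃ k : ℕ, (k : ℤ) = q.2 * s - q.1 := ⟨(q.2 * s - q.1).toNat,
      Int.toNat_of_nonneg hq.le⟩
    refine ⟨(∑ i ∈ range k, ((u⁻¹ : Rˣ) : R) ^ i) * G, ?_, ?_⟩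
    · have h : dn u (q :: l) = (1 - Polynomial.C ((u ^ q.1 : Rˣ) : R) *
          Polynomial.X ^ q.2.toNat) * dn u l := by
        simp [dn]
      have e1 : ((u ^ q.1 : Rˣ) : R) * ((((u⁻¹ : Rˣ) : R) ^ s) ^ q.2.toNat) =
          ((u⁻¹ : Rˣ) : R) ^ k := by
        rw [← pow_mul, ← Units.val_pow_eq_pow_val, ← Units.val_pow_eq_pow_val, ← Units.val_mul]
        congr 1
        rw [← zpow_natCast, ← zpow_natCast, inv_zpow', inv_zpow', ← zpow_add]
        congr 1
        push_cast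
        rw [hk, Int.toNat_of_nonneg hq2.le]
        ring
      rw [h, Polynomial.eval_mul, hG, Polynomial.eval_sub, Polynomial.eval_one,
        Polynomial.eval_mul, Polynomial.eval_C, Polynomial.eval_pow, Polynomial.eval_X, e1,
        List.length_cons, pow_succ, ← geom_sum_mul_neg]
      ring
    · rw [map_mul, hG', map_sum, List.map_cons, List.prod_cons]
      simp only [map_pow, hv1, one_pow, Finset.sum_const, Finset.card_range, nsmul_eq_mul,
        mul_one]
      have hkc : ((k : ℕ) : ℂ) = (q.2 : ℂ) * s - q.1 := by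
        have := congrArg (fun z : ℤ => (z : ℂ)) hk
        push_cast at this
        exact this
      rw [hkc]

/-- **The poles of the topological zeta function.** -/
theorem top_of_mot (h1 : ε (E ((Lu ℂ : (MK ℂ)ˣ) : MK ℂ)) = 1)
    (hu : E ((Lu ℂ : (MK ℂ)ˣ) : MK ℂ) ≠ 1) {S : Finset (ℤ × ℤ)} (hS : ∀ q ∈ S, 0 < q.2)
    {Zm : PowerSeries (MK ℂ)} (hm : Zm ∈ ratRing ℂ S) {Z : RatFunc ℂ} (hZ : IsTopZeta E ε Zm Z)
    {s₀ : ℂ} (hs₀ : Z.denom.eval s₀ = 0) : ∃ q ∈ S, s₀ = (q.1 : ℂ) / q.2 := by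
  classical
  obtain ⟨l, P, hl, hP⟩ := exists_poly (fun q hq => hS q (Finset.mem_coe.1 hq)) hm
  set u : Rˣ := Units.map (E : MK ℂ →* R) (Lu ℂ) with hudef
  have huv : (u : R) = E ((Lu ℂ : (MK ℂ)ˣ) : MK ℂ) := rfl
  have hu1 : ε (u : R) = 1 := h1
  set v : R := ((u⁻¹ : Rˣ) : R) with hv
  have hv1 : ε v = 1 := by
    have h2 : ε (u : R) * ε v = 1 := by
      rw [← map_mul, hv, Units.mul_inv, map_one]
    rwa [hu1, one_mul] at h2
  have hvne : v ≠ 1 := by
    intro h
    have h2 : (u : R) * v = 1 := by rw [hv, Units.mul_inv]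
    rw [h, mul_one] at h2
    exact hu h2
  have hl2 : ∀ q ∈ l, 0 < q.2 := fun q hq => hS q (Finset.mem_coe.1 (hl q hq))
  -- a bound
  obtain ⟨s₁, hs₁⟩ : ∃ s₁ : ℕ, 0 < s₁ ∧ ∀ q ∈ l, q.1 < s₁ := by
    refine ⟨(l.map fun q => q.1.toNat).sum + 1, Nat.succ_pos _, fun q hq => ?_⟩
    have h2 : q.1.toNat ≤ (l.map fun q => q.1.toNat).sum :=
      List.single_le_sum (fun _ _ => Nat.zero_le _) _ (List.mem_map_of_mem hq)
    have h3 : q.1 ≤ q.1.toNat := Int.self_le_toNat _
    have h4 : (q.1.toNat : ℤ) ≤ (((l.map fun q => q.1.toNat).sum : ℕ) : ℤ) := by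
      exact_mod_cast h2
    rw [Nat.cast_add, Nat.cast_one]
    omega
  have hk : ∀ s : ℕ, s₁ ≤ s → ∀ q ∈ l, 0 < q.2 * (s : ℤ) - q.1 := by
    intro s hs q hq
    have h2 := hs₁.2 q hq
    have h3 : (s : ℤ) ≤ q.2 * s := by
      have := hl2 q hq
      nlinarith
    have h4 : (s₁ : ℤ) ≤ s := by exact_mod_cast hs
    omega
  set K : ℕ → ℂ := fun s => (l.map fun q => (q.2 : ℂ) * s - q.1).prod with hK
  have hc : ∀ s : ℕ, ∃ c : ℂ, s₁ ≤ s → SpecAt u ε (PowerSeries.map E Zm) s c ∧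
      Z.num.eval (s : ℂ) = c * Z.denom.eval (s : ℂ) := by
    intro s
    by_cases hs : s₁ ≤ s
    · obtain ⟨c, hc⟩ := hZ s (lt_of_lt_of_le hs₁.1 hs)
      exact ⟨c, fun _ => hc⟩
    · exact ⟨0, fun h => absurd h hs⟩
  choose c hc using hc
  obtain ⟨g, hg⟩ := spec_poly ε v hvne hv1 (P.map E) l.length s₁ (fun s => c s * K s) (by
    intro s hs
    obtain ⟨⟨P', Q', x, y, h2, h3, h4, h5, h6⟩, -⟩ := hc s hs
    obtain ⟨G, hG, hG'⟩ := dn_eval u hu1 l hl2 s (hk s hs)
    have hτ : (((u⁻¹) ^ s : Rˣ) : R) = v ^ s := by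
      rw [Units.val_pow_eq_pow_val]
    rw [hτ] at h3 h4
    have h7 : (dn u l : PowerSeries R) * PowerSeries.map E Zm = (P.map E : Polynomial R) := by
      have h8 := congrArg (PowerSeries.map E) hP
      rw [map_mul, ← Polynomial.polynomial_map_coe, ← Polynomial.polynomial_map_coe,
        dn_map] at h8
      exact h8
    have h9 : Q' * P.map E = dn u l * P' := by
      have : ((Q' * P.map E : Polynomial R) : PowerSeries R) =
          ((dn u l * P' : Polynomial R) : PowerSeries R) := by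
        rw [Polynomial.coe_mul, Polynomial.coe_mul, ← h2, ← h7]
        ring
      exact Polynomial.coe_injective _ this
    have h10 := congrArg (Polynomial.eval (v ^ s)) h9
    rw [Polynomial.eval_mul, Polynomial.eval_mul, hG] at h10
    refine ⟨G * x, y, ?_, h5, ?_⟩
    · refine mul_left_cancel₀ h3 ?_
      linear_combination y * h10 + ((1 - v) ^ l.length * G) * h4
    · rw [map_mul, h6, hG']
      ring)
  -- the polynomial with the roots `a / b`
  set H : Polynomial ℂ := (l.map fun q => Polynomial.C (q.2 : ℂ) * Polynomial.X -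
    Polynomial.C (q.1 : ℂ)).prod with hH
  have hHe : ∀ t : ℂ, H.eval t = (l.map fun q => (q.2 : ℂ) * t - q.1).prod := by
    intro t
    rw [hH, ← Polynomial.coe_evalRingHom, map_list_prod, List.map_map]
    congr 1
    refine List.map_congr_left fun q _ => ?_
    simp
  have hpoly : Z.num * H = g * Z.denom := by
    refine Polynomial.eq_of_infinite_eval_eq _ _ ?_
    have h2 : Set.Infinite {s : ℕ | s₁ ≤ s} := Set.infinite_of_injective_forall_mem
      (f := fun n : ℕ => n + s₁) (fun a b h => by simpa using h) (fun n => Nat.le_add_left _ _)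
    refine Set.Infinite.mono ?_ (h2.image (f := fun s : ℕ => (s : ℂ))
      (fun a _ b _ h => Nat.cast_injective h))
    rintro _ ⟨s, hs, rfl⟩
    have h3 := (hc s hs).2
    have h4 := hg s hs
    simp only [hK] at h4
    change (Z.num * H).eval (s : ℂ) = (g * Z.denom).eval (s : ℂ)
    rw [Polynomial.eval_mul, Polynomial.eval_mul, h3, hHe, ← h4]
    ring
  have h2 := congrArg (Polynomial.eval s₀) hpoly
  rw [Polynomial.eval_mul, Polynomial.eval_mul, hs₀, mul_zero] at h2
  have hn0 : Z.num.eval s₀ ≠ 0 := by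
    intro h0
    obtain ⟨a, b, hab⟩ := Z.isCoprime_num_denom
    have h3 := congrArg (Polynomial.eval s₀) hab
    rw [Polynomial.eval_add, Polynomial.eval_mul, Polynomial.eval_mul, h0, hs₀, mul_zero,
      mul_zero, add_zero, Polynomial.eval_one] at h3
    exact zero_ne_one h3
  have h3 := (mul_eq_zero.1 h2).resolve_left hn0
  rw [hHe, List.prod_eq_zero_iff, List.mem_map] at h3
  obtain ⟨q, hq, hq0⟩ := h3
  refine ⟨q, Finset.mem_coe.1 (hl q hq), ?_⟩
  have hb : (q.2 : ℂ) ≠ 0 := by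
    have := hl2 q hq
    exact_mod_cast this.ne'
  rw [eq_div_iff hb]
  linear_combination hq0

end top

end Pool.Agent.Q300.LM
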