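import Pool.Agent.Q300.LM.Main

set_option autoImplicit false

/-! The classes of the jets with given angular component: formal changes of coordinates and units
with constant term one. -/

namespace Pool.Agent.Q300.LM

open MvPolynomial Pool.Agent.H628R4.TP Pool.Agent.W428.MOT Pool.Agent.W375.MT
open Pool.Agent.W375.MG (JetG zetaG Good good_units ratRing_mono)
open Pool.Agent.Y229.MS (addyz itr Witr Wyz constr_Witr constr_Wyz CE ce_good fst' zeta_of_fst
  descend' Tl exyz cyz spa_addyz ind_exyz cyz_ne shn t1)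
open Pool.Agent.Y229.PS (Becomes becomes_local formal_of_local stabP)
open Pool.Agent.Y229.RE (stab)
open Pool.Agent.Y229.GL (IsCoord)
open Pool.Agent.W425.ND (spa)
open Pool.Agent.W425.SM (Ind)
open Pool.Agent.W426.SM (gord IsRay)
open Pool.Agent.Q59.TR
open Pool.Agent.Z864.MS (Tm isPF_Tm)

section
variable {a b N : ℕ}

theorem ev_one_const {γ : Fin a → PowerSeries CC}
    (h : ∀ i, PowerSeries.constantCoeff (γ i) = 0) {u : MvPowerSeries (Fin a) ℂ}
    (hu : MvPowerSeries.constantCoeff u = 1) : PowerSeries.constantCoeff (ev γ u) = 1 := by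
  have h1 : u = 1 + (u - 1) := by ring
  have h2 : ev γ u = 1 + ev γ (u - 1) := by
    unfold ev
    rw [← MvPowerSeries.coe_substAlgHom (hs h), map_sub, map_one]
    ring
  rw [h2, map_add, map_one, ev_const h (by rw [map_sub, hu, map_one, sub_self]), add_zero]

/-- `F` becomes `u G`, `u(0) = 1`, in the formal coordinates `φ`, which have inverses up to any
order -/
structure FIsoE (F : MvPolynomial (Fin a) ℂ) (G : MvPolynomial (Fin b) ℂ) : Prop where
  ex : ∃ (φ : Fin a → MvPowerSeries (Fin b) ℂ) (u : MvPowerSeries (Fin b) ℂ),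
    (∀ i, MvPowerSeries.constantCoeff (φ i) = 0) ∧ MvPowerSeries.constantCoeff u = 1 ∧
    MvPowerSeries.subst φ (F : MvPowerSeries (Fin a) ℂ) = u * (G : MvPowerSeries (Fin b) ℂ) ∧
    ∀ N : ℕ, ∃ ψ : Fin b → MvPowerSeries (Fin a) ℂ,
      (∀ j, MvPowerSeries.constantCoeff (ψ j) = 0) ∧
      (∀ i, MvPowerSeries.truncTotal (N + 1) (MvPowerSeries.subst ψ (φ i)) =
        MvPowerSeries.truncTotal (N + 1) (MvPowerSeries.X i)) ∧
      ∀ i, MvPowerSeries.truncTotal (N + 1) (MvPowerSeries.subst φ (ψ i)) =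
        MvPowerSeries.truncTotal (N + 1) (MvPowerSeries.X i)

/-- **The transport of the classes of jets.** -/
theorem transportE {R : Type} [CommRing R] (M : Meas ℂ R) {F : MvPolynomial (Fin a) ℂ}
    {G : MvPolynomial (Fin b) ℂ} (h : FIsoE F G) (P : PowerSeries CC → Prop)
    (hP1 : ∀ g g' : PowerSeries CC, (∀ k ≤ N, PowerSeries.coeff k g = PowerSeries.coeff k g') →
      P g → P g')
    (hP2 : ∀ g g' : PowerSeries CC, PowerSeries.constantCoeff g = 1 → (P (g * g') ↔ P g'))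
    (hcF : Constr {z : Pt ℂ (Fin a × Fin (N + 1)) | (∀ i, z (i, 0) = 0) ∧ P (aeval (arc z) F)})
    (hcG : Constr {z : Pt ℂ (Fin b × Fin (N + 1)) | (∀ i, z (i, 0) = 0) ∧
      P (aeval (arc z) G)}) :
    M.χ _ {z : Pt ℂ (Fin b × Fin (N + 1)) | (∀ i, z (i, 0) = 0) ∧ P (aeval (arc z) G)} =
      M.χ _ {z : Pt ℂ (Fin a × Fin (N + 1)) | (∀ i, z (i, 0) = 0) ∧ P (aeval (arc z) F)} := by
  obtain ⟨φ, u, hφ, hu, h3, hinv⟩ := h.ex
  obtain ⟨ψ, hψ, h2, h1⟩ := hinv N
  have key : ∀ z : Pt ℂ (Fin b × Fin (N + 1)), (∀ i, z (i, 0) = 0) →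
      (P (aeval (arc (Tm (trm φ N) N z)) F) ↔ P (aeval (arc z) G)) := by
    intro z g1
    have e1 : ∀ k ≤ N, PowerSeries.coeff k (aeval (arc (Tm (trm φ N) N z)) F) =
        PowerSeries.coeff k (ev (arc z) (MvPowerSeries.subst φ (F : MvPowerSeries (Fin a) ℂ))) := by
      intro k hk
      rw [← ev_coe, coeff_val hφ z g1 _ k hk]
    have e2 : P (ev (arc z) (MvPowerSeries.subst φ (F : MvPowerSeries (Fin a) ℂ))) ↔
        P (aeval (arc z) G) := by
      rw [h3, ev_mul (arc_const z g1), ev_coe, hP2 _ _ (ev_one_const (arc_const z g1) hu)]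
    rw [← e2]
    exact ⟨hP1 _ _ e1, hP1 _ _ fun k hk => (e1 k hk).symm⟩
  refine M.iso _ _ hcG hcF (Tm (trm φ N) N) (Tm (trm ψ N) N)
    (regularOn_poly (fun p => isPF_Tm _ p) _) (regularOn_poly (fun p => isPF_Tm _ p) _)
    ?_ ?_ (fun z hz => img_img hφ h1 z hz.1) (fun z hz => img_img hψ h2 z hz.1)
  · rintro z ⟨g1, g2⟩
    exact ⟨img_zero hφ z g1, (key z g1).2 g2⟩
  · rintro z ⟨g1, g2⟩
    have g3 := img_zero hψ z g1
    refine ⟨g3, ?_⟩
    rw [← key _ g3, img_img hψ h2 z g1]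
    exact g2

theorem jetG_setE (F : MvPolynomial (Fin a) ℂ) (E : Set (AlgebraicClosure ℂ)) (N : ℕ) :
    JetG F ({0} : Set (Pt ℂ (Fin a))) E N =
      {z : Pt ℂ (Fin a × Fin (N + 1)) | (∀ i, z (i, 0) = 0) ∧
        ((∀ j < N, PowerSeries.coeff j (aeval (arc z) F) = 0) ∧
          PowerSeries.coeff N (aeval (arc z) F) ∈ E)} := by
  ext z
  simp only [JetG, Set.mem_ofPred_eq, Set.mem_singleton_iff, funext_iff, Pi.zero_apply]

theorem isUnit_of_one {g : PowerSeries CC} (hg : PowerSeries.constantCoeff g = 1) : IsUnit g := by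
  rw [PowerSeries.isUnit_iff_constantCoeff, hg]
  exact isUnit_one

theorem jet_eqE {R : Type} [CommRing R] (M : Meas ℂ R) {F : MvPolynomial (Fin a) ℂ}
    {G : MvPolynomial (Fin b) ℂ} (h : FIsoE F G) {E : Set (AlgebraicClosure ℂ)} (hE : CE E)
    (N : ℕ) : M.χ _ (JetG G ({0} : Set (Pt ℂ (Fin b))) E N) =
      M.χ _ (JetG F ({0} : Set (Pt ℂ (Fin a))) E N) := by
  have c1 := Pool.Agent.Z864.MS.constr_JetE F (W := {0}) constr_zero hE N
  have c2 := Pool.Agent.Z864.MS.constr_JetE G (W := {0}) constr_zero hE N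
  rw [jetG_setE] at c1 c2 ⊢
  rw [jetG_setE]
  refine transportE M h (fun g => (∀ j < N, PowerSeries.coeff j g = 0) ∧
    PowerSeries.coeff N g ∈ E) ?_ ?_ c1 c2
  · rintro g g' hg ⟨h1, h2⟩
    refine ⟨fun j hj => ?_, ?_⟩
    · rw [← hg j hj.le]
      exact h1 j hj
    · rw [← hg N le_rfl]
      exact h2
  · intro g g' hg
    show ((∀ j < N, PowerSeries.coeff j (g * g') = 0) ∧ PowerSeries.coeff N (g * g') ∈ E) ↔
      ((∀ j < N, PowerSeries.coeff j g' = 0) ∧ PowerSeries.coeff N g' ∈ E)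
    rw [← PowerSeries.X_pow_dvd_iff, ← PowerSeries.X_pow_dvd_iff,
      (isUnit_of_one hg).dvd_mul_left]
    refine and_congr_right fun hd => ?_
    obtain ⟨q, rfl⟩ := hd
    have e1 : PowerSeries.coeff N (g * (PowerSeries.X ^ N * q)) =
        PowerSeries.coeff N (PowerSeries.X ^ N * q) := by
      have e2 : g * (PowerSeries.X ^ N * q) = PowerSeries.X ^ N * (g * q) := by ring
      have e3 := PowerSeries.coeff_X_pow_mul (g * q) N 0
      have e4 := PowerSeries.coeff_X_pow_mul q N 0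
      rw [zero_add] at e3 e4
      rw [e2, e3, e4, PowerSeries.coeff_zero_eq_constantCoeff_apply,
        PowerSeries.coeff_zero_eq_constantCoeff_apply, map_mul, hg, one_mul]
    rw [e1]

theorem tl_eqE {R : Type} [CommRing R] (M : Meas ℂ R) {F : MvPolynomial (Fin a) ℂ}
    {G : MvPolynomial (Fin b) ℂ} (h : FIsoE F G) (i N : ℕ) (hi : i ≤ N + 1) :
    M.χ _ (Tl G ({0} : Set (Pt ℂ (Fin b))) i N) =
      M.χ _ (Tl F ({0} : Set (Pt ℂ (Fin a))) i N) := by
  have c1 := Pool.Agent.Y812.MS.constr_Tl F (W := {0}) constr_zero i N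
  have c2 := Pool.Agent.Y812.MS.constr_Tl G (W := {0}) constr_zero i N
  rw [tl_set] at c1 c2 ⊢
  rw [tl_set]
  refine transportE M h (fun g => ∀ j < i, PowerSeries.coeff j g = 0) ?_ ?_ c1 c2
  · intro g g' hg h1 j hj
    rw [← hg j (by omega)]
    exact h1 j hj
  · intro g g' hg
    show (∀ j < i, PowerSeries.coeff j (g * g') = 0) ↔ (∀ j < i, PowerSeries.coeff j g' = 0)
    rw [← PowerSeries.X_pow_dvd_iff, ← PowerSeries.X_pow_dvd_iff,
      (isUnit_of_one hg).dvd_mul_left]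

/-- formally isomorphic polynomials have the same zeta functions at the origin -/
theorem zeta_eqE (hab : a = b) {F : MvPolynomial (Fin a) ℂ} {G : MvPolynomial (Fin b) ℂ}
    (h : FIsoE F G) {E : Set (AlgebraicClosure ℂ)} (hE : CE E) :
    zetaG G ({0} : Set (Pt ℂ (Fin b))) E = zetaG F ({0} : Set (Pt ℂ (Fin a))) E := by
  obtain ⟨M₀, hM₀⟩ := Pool.Agent.W417.MT.K0.main ℂ
  ext N
  have h5 : b * N = a * N := by rw [hab]
  rw [zetaG, zetaG, PowerSeries.coeff_mk, PowerSeries.coeff_mk, ← hM₀, ← hM₀,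
    jet_eqE M₀ h hE N, h5]

/-- the same after adding `y z` -/
theorem zeta_addyzE (hab : a = b) {F : MvPolynomial (Fin a) ℂ} {G : MvPolynomial (Fin b) ℂ}
    (h : FIsoE F G) {E : Set (AlgebraicClosure ℂ)} (hE : CE E) :
    zetaG (addyz G) (Wyz ({0} : Set (Pt ℂ (Fin b)))) E =
      zetaG (addyz F) (Wyz ({0} : Set (Pt ℂ (Fin a)))) E := by
  obtain ⟨M₀, hM₀⟩ := Pool.Agent.W417.MT.K0.main ℂ
  ext N
  have h1 : M₀.χ _ (JetG (addyz G) (Wyz ({0} : Set (Pt ℂ (Fin b)))) E N) =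
      M₀.χ _ (JetG (addyz F) (Wyz ({0} : Set (Pt ℂ (Fin a)))) E N) := by
    rw [t1 ℂ _ M₀ G {0} E constr_zero hE N, t1 ℂ _ M₀ F {0} E constr_zero hE N,
      jet_eqE M₀ h hE N,
      Finset.sum_congr rfl fun i hi => tl_eqE M₀ h i N (Finset.mem_range.1 hi).le]
  have h5 : (b + 2) * N = (a + 2) * N := by rw [hab]
  rw [zetaG, zetaG, PowerSeries.coeff_mk, PowerSeries.coeff_mk, ← hM₀, ← hM₀, h1, h5]

end

/-- renaming of the variables -/
theorem fisoE_rename {a b : ℕ} (e : Fin a ≃ Fin b) (F : MvPolynomial (Fin a) ℂ) :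
    FIsoE F (rename e F) := by
  refine ⟨⟨fun i => MvPowerSeries.X (e i), 1,
    fun i => MvPowerSeries.constantCoeff_X _, map_one _, ?_, fun N =>
    ⟨fun j => MvPowerSeries.X (e.symm j), fun j => MvPowerSeries.constantCoeff_X _,
    fun j => ?_, fun i => ?_⟩⟩⟩
  · rw [one_mul, MvPowerSeries.subst_coe]
    have h2 : (aeval (fun i => (MvPowerSeries.X (e i) : MvPowerSeries (Fin b) ℂ)) :
        MvPolynomial (Fin a) ℂ →ₐ[ℂ] MvPowerSeries (Fin b) ℂ) =
        (MvPolynomial.coeToMvPowerSeries.algHom (R := ℂ) (σ := Fin b) ℂ).comp (rename e) := by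
      apply MvPolynomial.algHom_ext
      intro i
      rw [aeval_X, AlgHom.comp_apply, rename_X]
      simp
    rw [h2]
    simp
  · rw [MvPowerSeries.subst_X (MvPowerSeries.hasSubst_of_constantCoeff_zero fun i =>
      MvPowerSeries.constantCoeff_X _), Equiv.symm_apply_apply]
  · rw [MvPowerSeries.subst_X (MvPowerSeries.hasSubst_of_constantCoeff_zero fun i =>
      MvPowerSeries.constantCoeff_X _), Equiv.apply_symm_apply]

/-- the two forms of `f + ∑ y_i z_i` -/
theorem fisoE_itr {n : ℕ} (f : MvPolynomial (Fin n) ℂ) (κ : ℕ) :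
    FIsoE (itr f κ) (stab f κ) := by
  obtain ⟨g, hg, hr⟩ := Pool.Agent.Y405.MS.itr_aux f κ
  have hcard : Fintype.card (Fin (n + 2 * κ)) = Fintype.card (Fin n ⊕ (Fin κ ⊕ Fin κ)) := by
    simp only [Fintype.card_fin, Fintype.card_sum]
    ring
  have hb : Function.Bijective g := (Fintype.bijective_iff_injective_and_card g).2 ⟨hg, hcard⟩
  set s : Fin n ⊕ (Fin κ ⊕ Fin κ) ≃ Fin (n + (κ + κ)) :=
    (Equiv.sumCongr (Equiv.refl _) finSumFinEquiv).trans finSumFinEquiv with hs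
  set e : Fin (n + 2 * κ) ≃ Fin (n + (κ + κ)) := (Equiv.ofBijective g hb).trans s with he
  have h1 : rename e (itr f κ) = stab f κ := by
    have h2 : (e : Fin (n + 2 * κ) → Fin (n + (κ + κ))) = s ∘ g := rfl
    rw [h2, ← rename_rename, hr, map_add, rename_rename, map_sum]
    unfold stab
    congr 1
    refine Finset.sum_congr rfl fun i _ => ?_
    rw [map_mul, rename_X, rename_X]
    rfl
  rw [← h1]
  exact fisoE_rename e _

/-- the constant term of the unit can be moved to the coefficients -/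
theorem normal {n κ r : ℕ} {f : MvPolynomial (Fin n) ℂ} {v : Fin r → Fin (n + (κ + κ)) → ℕ}
    {c : Fin r → ℂ} (hc : ∀ j, c j ≠ 0)
    (hB : Becomes (f : MvPowerSeries (Fin n) ℂ) κ (spa v c)) :
    ∃ c' : Fin r → ℂ, (∀ j, c' j ≠ 0) ∧ Becomes (f : MvPowerSeries (Fin n) ℂ) κ (spa v c') ∧
      FIsoE (stab f κ) (spa v c') := by
  obtain ⟨φ, u, h0, h1, h5, h6⟩ := hB
  set t : ℂ := MvPowerSeries.constantCoeff u with ht
  have ht0 : t ≠ 0 := (MvPowerSeries.isUnit_iff_constantCoeff.1 h5).ne_zero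
  set u' : MvPowerSeries (Fin (n + (κ + κ))) ℂ := MvPowerSeries.C t⁻¹ * u with hu'
  have hu0 : MvPowerSeries.constantCoeff u' = 1 := by
    rw [hu', map_mul, MvPowerSeries.constantCoeff_C, ← ht, inv_mul_cancel₀ ht0]
  have hspa : spa v (fun j => t * c j) = C t * spa v c := by
    unfold spa
    rw [Finset.mul_sum]
    refine Finset.sum_congr rfl fun j _ => ?_
    rw [map_mul, mul_assoc]
  have hmul : u * (spa v c : MvPowerSeries (Fin (n + (κ + κ))) ℂ) =
      u' * (spa v (fun j => t * c j) : MvPowerSeries (Fin (n + (κ + κ))) ℂ) := by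
    rw [hspa, MvPolynomial.coe_mul, MvPolynomial.coe_C, hu']
    have h7 : (MvPowerSeries.C t⁻¹ : MvPowerSeries (Fin (n + (κ + κ))) ℂ) *
        MvPowerSeries.C t = 1 := by
      rw [← map_mul, inv_mul_cancel₀ ht0, map_one]
    calc _ = (MvPowerSeries.C t⁻¹ * MvPowerSeries.C t) *
        (u * (spa v c : MvPowerSeries (Fin (n + (κ + κ))) ℂ)) := by rw [h7, one_mul]
      _ = _ := by ring
  rw [hmul] at h6
  refine ⟨fun j => t * c j, fun j => mul_ne_zero ht0 (hc j), ⟨φ, u', h0, h1, ?_, h6⟩, ?_⟩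
  · rw [MvPowerSeries.isUnit_iff_constantCoeff, hu0]
    exact isUnit_one
  · rw [stabP_coe] at h6
    exact ⟨⟨φ, u', h1, hu0, h6, fun N => exists_inv h0 h1 N⟩⟩

end Pool.Agent.Q300.LM
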